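import Pool.Agent.Q6.FD.Sqr

/-! From a flag over `k` at which the form is a nonzero square to such a flag in the affine chart. -/

set_option autoImplicit false
set_option maxHeartbeats 400000

namespace Pool.Agent.Q6.FD

open MvPolynomial

section

variable {k : Type} [Field k] [CharZero k]

/-- the form is a nonzero square at the flag `(a, b)` -/
def FS (c : Fin 3 → Fin 3 → Fin 3 → Fin 3 → k) (a b : Fin 3 → k) : Prop :=
  ∑ i, a i * b i = 0 ∧ ∃ w : k, w ≠ 0 ∧ w ^ 2 = form4 c a a b b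

theorem fs_right {c : Fin 3 → Fin 3 → Fin 3 → Fin 3 → k} {a b : Fin 3 → k} (h : FS c a b)
    {b' : Fin 3 → k} (hb : ∑ i, a i * b' i = 0) :
    ∃ t : k, t ≠ 0 ∧ FS c a (fun i => b i + t * b' i) := by
  obtain ⟨h0, w, hw, h1⟩ := h
  obtain ⟨t, ⟨v, hv, ht⟩, ht0⟩ := (infinite_conic (form4 c a a b' b')
    (form4 c a a b b' + form4 c a a b' b) w hw).exists_notMem_finite (Set.finite_singleton 0)
  refine ⟨t, fun h => ht0 h, ?_, v, hv, ?_⟩
  · have e : ∑ i, a i * (b i + t * b' i) = ∑ i, a i * b i + t * ∑ i, a i * b' i := by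
      rw [Finset.mul_sum, ← Finset.sum_add_distrib]
      refine Finset.sum_congr rfl fun i _ => ?_
      ring
    rw [e, h0, hb]
    ring
  · rw [form4_right, ht, h1]

theorem fs_left {c : Fin 3 → Fin 3 → Fin 3 → Fin 3 → k} {a b : Fin 3 → k} (h : FS c a b)
    {a' : Fin 3 → k} (ha : ∑ i, a' i * b i = 0) :
    ∃ t : k, t ≠ 0 ∧ FS c (fun i => a i + t * a' i) b := by
  obtain ⟨h0, w, hw, h1⟩ := h
  obtain ⟨t, ⟨v, hv, ht⟩, ht0⟩ := (infinite_conic (form4 c a' a' b b)
    (form4 c a a' b b + form4 c a' a b b) w hw).exists_notMem_finite (Set.finite_singleton 0)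
  refine ⟨t, fun h => ht0 h, ?_, v, hv, ?_⟩
  · have e : ∑ i, (a i + t * a' i) * b i = ∑ i, a i * b i + t * ∑ i, a' i * b i := by
      rw [Finset.mul_sum, ← Finset.sum_add_distrib]
      refine Finset.sum_congr rfl fun i _ => ?_
      ring
    rw [e, h0, ha]
    ring
  · rw [form4_left, ht, h1]

omit [CharZero k] in
theorem form4_zero_left (c : Fin 3 → Fin 3 → Fin 3 → Fin 3 → k) {a b : Fin 3 → k}
    (ha : ∀ i, a i = 0) : form4 c a a b b = 0 := by
  simp only [form4, ha]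
  simp

omit [CharZero k] in
theorem form4_zero_right (c : Fin 3 → Fin 3 → Fin 3 → Fin 3 → k) {a b : Fin 3 → k}
    (hb : ∀ i, b i = 0) : form4 c a a b b = 0 := by
  simp only [form4, hb]
  simp

/-- we may suppose that `b` is not a multiple of the first basis vector -/
theorem fs_step0 {c : Fin 3 → Fin 3 → Fin 3 → Fin 3 → k} {a b : Fin 3 → k} (h : FS c a b) :
    ∃ b, FS c a b ∧ ¬ (b 1 = 0 ∧ b 2 = 0) := by
  by_cases hb : b 1 = 0 ∧ b 2 = 0
  · have hb0 : b 0 ≠ 0 := by
      intro h0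
      obtain ⟨-, w, hw, h1⟩ := h
      rw [form4_zero_right c (a := a) (b := b) (by
        intro i
        fin_cases i
        · exact h0
        · exact hb.1
        · exact hb.2)] at h1
      exact hw ((pow_eq_zero_iff two_ne_zero).1 h1)
    have ha0 : a 0 = 0 := by
      have h1 := h.1
      rw [Fin.sum_univ_three, hb.1, hb.2, mul_zero, mul_zero, add_zero, add_zero] at h1
      exact (mul_eq_zero.1 h1).resolve_right hb0
    have ha : ¬ (a 1 = 0 ∧ a 2 = 0) := by
      rintro ⟨h1, h2⟩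
      obtain ⟨-, w, hw, h3⟩ := h
      rw [form4_zero_left c (a := a) (b := b) (by
        intro i
        fin_cases i
        · exact ha0
        · exact h1
        · exact h2)] at h3
      exact hw ((pow_eq_zero_iff two_ne_zero).1 h3)
    obtain ⟨t, ht, h'⟩ := fs_right h (b' := ![0, -a 2, a 1]) (by
      rw [Fin.sum_univ_three]
      simp
      ring)
    refine ⟨_, h', ?_⟩
    rintro ⟨h1, h2⟩
    simp [hb.1, hb.2, ht] at h1 h2
    exact ha ⟨h2, h1⟩
  · exact ⟨b, h, hb⟩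

/-- we may suppose that `a₀ ≠ 0` -/
theorem fs_step1 {c : Fin 3 → Fin 3 → Fin 3 → Fin 3 → k} {a b : Fin 3 → k} (h : FS c a b)
    (hb : ¬ (b 1 = 0 ∧ b 2 = 0)) : ∃ a, FS c a b ∧ a 0 ≠ 0 := by
  by_cases ha : a 0 = 0
  · by_cases h1 : b 1 = 0
    · have h2 : b 2 ≠ 0 := fun h2 => hb ⟨h1, h2⟩
      obtain ⟨t, ht, h'⟩ := fs_left h (a' := ![b 2, 0, -b 0]) (by
        rw [Fin.sum_univ_three]
        simp
        ring)
      refine ⟨_, h', ?_⟩
      simp [ha, ht, h2]
    · obtain ⟨t, ht, h'⟩ := fs_left h (a' := ![b 1, -b 0, 0]) (by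
        rw [Fin.sum_univ_three]
        simp
        ring)
      refine ⟨_, h', ?_⟩
      simp [ha, ht, h1]
  · exact ⟨a, h, ha⟩

/-- we may suppose that `b₂ ≠ 0` -/
theorem fs_step2 {c : Fin 3 → Fin 3 → Fin 3 → Fin 3 → k} {a b : Fin 3 → k} (h : FS c a b)
    (ha : a 0 ≠ 0) : ∃ b, FS c a b ∧ b 2 ≠ 0 := by
  by_cases hb : b 2 = 0
  · obtain ⟨t, ht, h'⟩ := fs_right h (b' := ![-a 2, 0, a 0]) (by
      rw [Fin.sum_univ_three]
      simp
      ring)
    refine ⟨_, h', ?_⟩
    simp [hb, ht, ha]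
  · exact ⟨b, h, hb⟩

omit [CharZero k] in
theorem form4_scale (c : Fin 3 → Fin 3 → Fin 3 → Fin 3 → k) (l m : k) (x y : Fin 3 → k) :
    form4 c (fun i => l * x i) (fun i => l * x i) (fun i => m * y i) (fun i => m * y i) =
      (l * m) ^ 2 * form4 c x x y y := by
  simp only [form4, Finset.mul_sum]
  refine Finset.sum_congr rfl fun i _ => Finset.sum_congr rfl fun j _ =>
    Finset.sum_congr rfl fun l _ => Finset.sum_congr rfl fun m _ => ?_
  ring

omit [CharZero k] in
theorem eval_branch (c : Fin 3 → Fin 3 → Fin 3 → Fin 3 → k) (s p q : k) :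
    eval ![s, p, q] (branchF c) =
      form4 c ![1, p, q] ![1, p, q] ![q - p * s, s, -1] ![q - p * s, s, -1] := by
  have h := form4_map c (aeval ![s, p, q] : MvPolynomial (Fin 3) k →ₐ[k] k)
    ![1, X 1, X 2] ![1, X 1, X 2] ![X 2 - X 1 * X 0, X 0, -1] ![X 2 - X 1 * X 0, X 0, -1]
  have e1 : (fun i => (aeval ![s, p, q] : MvPolynomial (Fin 3) k →ₐ[k] k)
      ((![1, X 1, X 2] : Fin 3 → MvPolynomial (Fin 3) k) i)) = ![1, p, q] := by
    funext i
    fin_cases i <;> simp
  have e2 : (fun i => (aeval ![s, p, q] : MvPolynomial (Fin 3) k →ₐ[k] k)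
      ((![X 2 - X 1 * X 0, X 0, -1] : Fin 3 → MvPolynomial (Fin 3) k) i)) =
      ![q - p * s, s, -1] := by
    funext i
    fin_cases i <;> simp
  rw [e1, e2] at h
  rw [← h]
  rfl

/-- a flag in the affine chart -/
theorem exists_affine {c : Fin 3 → Fin 3 → Fin 3 → Fin 3 → k} {a b : Fin 3 → k} (h : FS c a b) :
    ∃ s p q, Sq (branchF c) s p q := by
  obtain ⟨b, h, hb⟩ := fs_step0 h
  obtain ⟨a, h, ha⟩ := fs_step1 h hb
  obtain ⟨b, h, hb⟩ := fs_step2 h ha
  obtain ⟨h0, w, hw, h1⟩ := h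
  refine ⟨-b 1 / b 2, a 1 / a 0, a 2 / a 0, w / (a 0 * b 2), div_ne_zero hw (mul_ne_zero ha hb), ?_⟩
  rw [eval_branch]
  have e1 : a = fun i => a 0 * (![1, a 1 / a 0, a 2 / a 0] : Fin 3 → k) i := by
    funext i
    fin_cases i
    · simp
    · simp
      field_simp
    · simp
      field_simp
  have e2 : b = fun i => -b 2 *
      (![a 2 / a 0 - a 1 / a 0 * (-b 1 / b 2), -b 1 / b 2, -1] : Fin 3 → k) i := by
    funext i
    fin_cases i
    · simp
      field_simp
      rw [Fin.sum_univ_three] at h0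
      linear_combination h0
    · simp
      field_simp
    · simp
  have h2 := h1
  rw [e1, e2, form4_scale] at h2
  rw [div_pow, h2]
  field_simp
  
end

end Pool.Agent.Q6.FD
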