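import Pool.Agent.Q6.FD.RealOpen

/-! Connected components of the real closure; the rational points of the branch divisor. -/

set_option autoImplicit false
set_option maxHeartbeats 400000

namespace Pool.Agent.Q6.FD

open MvPolynomial Filter Topology

/-- a relatively clopen subset of a set with finitely many components is a finite union of
preconnected sets -/
theorem comp_union {X : Type} [TopologicalSpace X] {V C : Set X}
    (hV : Finite (ConnectedComponents V)) (hCV : C ⊆ V)
    (h1 : ∀ x ∈ C, ∀ᶠ y in 𝓝 x, y ∈ V → y ∈ C) (h2 : ∀ x ∈ V, x ∉ C → ∀ᶠ y in 𝓝 x, y ∉ C) :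
    ∃ (I : Type) (_ : Finite I) (D : I → Set X), (∀ i, IsPreconnected (D i)) ∧ C = ⋃ i, D i := by
  let C' : Set V := Subtype.val ⁻¹' C
  have hcl : IsClopen C' := by
    constructor
    · rw [← isOpen_compl_iff, isOpen_iff_mem_nhds]
      rintro ⟨x, hx⟩ hxC
      have := (continuous_subtype_val.continuousAt (x := (⟨x, hx⟩ : V))).eventually (h2 x hx hxC)
      exact this
    · rw [isOpen_iff_mem_nhds]
      rintro ⟨x, hx⟩ hxC
      have := (continuous_subtype_val.continuousAt (x := (⟨x, hx⟩ : V))).eventually (h1 x hxC)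
      filter_upwards [this] with y hy
      exact hy y.2
  refine ⟨{c : ConnectedComponents V // ∃ x ∈ C', ConnectedComponents.mk x = c}, inferInstance,
    fun c => Subtype.val '' (ConnectedComponents.mk ⁻¹' {c.1}), ?_, ?_⟩
  · rintro ⟨c, x, hx, rfl⟩
    change IsPreconnected (Subtype.val '' (ConnectedComponents.mk ⁻¹' {ConnectedComponents.mk x}))
    rw [connectedComponents_preimage_singleton]
    exact isPreconnected_connectedComponent.image _ continuous_subtype_val.continuousOn
  · ext x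
    constructor
    · intro hx
      refine Set.mem_iUnion.2 ⟨⟨ConnectedComponents.mk ⟨x, hCV hx⟩, ⟨x, hCV hx⟩, hx, rfl⟩, ?_⟩
      exact ⟨⟨x, hCV hx⟩, rfl, rfl⟩
    · intro hx
      obtain ⟨⟨c, y, hy, rfl⟩, hx⟩ := Set.mem_iUnion.1 hx
      obtain ⟨z, hz, rfl⟩ := hx
      have h3 : z ∈ connectedComponent y := by
        rw [← connectedComponents_preimage_singleton]
        exact hz
      exact hcl.connectedComponent_subset hy h3

theorem fin_comp {X : Type} [TopologicalSpace X] {S : Set X} {I : Type} [Finite I] {D : I → Set X}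
    (hD : ∀ i, IsPreconnected (D i)) (hS : S = ⋃ i, D i) : Finite (ConnectedComponents S) := by
  have hsub : ∀ i, D i ⊆ S := fun i => by rw [hS]; exact Set.subset_iUnion D i
  let f : {i : I // (D i).Nonempty} → ConnectedComponents S := fun i =>
    ConnectedComponents.mk ⟨i.2.some, hsub i.1 i.2.some_mem⟩
  refine Finite.of_surjective f ?_
  intro c
  obtain ⟨⟨x, hx⟩, rfl⟩ := ConnectedComponents.surjective_coe c
  have hx' := hx
  rw [hS] at hx'
  obtain ⟨i, hi⟩ := Set.mem_iUnion.1 hx'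
  refine ⟨⟨i, ⟨x, hi⟩⟩, ?_⟩
  change ConnectedComponents.mk _ = ConnectedComponents.mk _
  rw [ConnectedComponents.coe_eq_coe']
  have hp : IsPreconnected (Subtype.val ⁻¹' (D i) : Set S) := by
    have h1 := (Topology.IsInducing.subtypeVal (t := S)).isPreconnected_image
      (s := (Subtype.val ⁻¹' (D i) : Set S))
    rw [Subtype.image_preimage_coe, Set.inter_eq_right.2 (hsub i)] at h1
    exact h1.1 (hD i)
  refine hp.subset_connectedComponent (x := ⟨x, hx⟩) hi ?_
  exact Set.Nonempty.some_mem (s := D i) _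

variable {G : MvPolynomial (Fin 3) ℚ}

/-- a rational point of the branch divisor at which one of the conics is smooth is a limit -/
theorem W0_branch {i : Bool} (d : DirData G i) {z : ℚ × ℚ × ℚ} (hz : ev G z = 0)
    (hβ : ev d.β z ≠ 0) : kap (0, z) ∈ W0 G := by
  have hx : ((0, z) : ℚ × ℚ × ℚ × ℚ).1 ^ 2 = ev G ((0, z) : ℚ × ℚ × ℚ × ℚ).2 := by
    change (0 : ℚ) ^ 2 = ev G z
    rw [hz]
    ring
  have hcc : cc d (kap (0, z)) (0 : ℝ) = 0 := by
    rw [cc]
    have : (kap (0, z)).1 = 0 := by simp [kap]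
    rw [this]
    simp
  have h0 : Phi d (kap (0, z)) (0 : ℝ) = kap (0, z) := by
    change (-((kap (0, z)).1 + cc d (kap (0, z)) 0), mv i (kap (0, z)).2 (0 * cc d (kap (0, z)) 0)) = _
    rw [hcc]
    have h1 : (kap (0, z)).1 = 0 := by simp [kap]
    cases i
    · refine Prod.ext ?_ ?_
      · simp [h1]
      · simp [mv]
    · refine Prod.ext ?_ ?_
      · simp [h1]
      · simp [mv]
  have hD : 1 - ev d.α (kap (0, z)).2 * (0 : ℝ) ^ 2 ≠ 0 := by simp
  have hc := Phi_cont d hD
  have hc2 : Tendsto (fun n : ℚ => Phi d (kap (0, z)) (n : ℝ)) (𝓝 (0 : ℚ)) (𝓝 (kap (0, z))) := by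
    have h1 : Tendsto (fun n : ℚ => ((kap (0, z), (n : ℝ)) : (ℝ × ℝ × ℝ × ℝ) × ℝ)) (𝓝 (0 : ℚ))
        (𝓝 (kap (0, z), (0 : ℝ))) := by
      refine Tendsto.prodMk_nhds tendsto_const_nhds ?_
      have := Rat.continuous_coe_real.tendsto (0 : ℚ)
      simpa using this
    have h2 := hc.tendsto.comp h1
    simp only at h2
    rw [h0] at h2
    exact h2
  refine mem_closure_of_tendsto (b := 𝓝[≠] (0 : ℚ)) (hc2.mono_left nhdsWithin_le_nhds) ?_
  have hD' : ∀ᶠ n : ℚ in 𝓝 0, 1 - ev d.α z * n ^ 2 ≠ 0 := by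
    have h3 : Continuous fun n : ℚ => 1 - ev d.α z * n ^ 2 := by fun_prop
    refine h3.continuousAt.eventually_ne ?_
    simp
  filter_upwards [self_mem_nhdsWithin, nhdsWithin_le_nhds hD'] with n hn hDn
  rw [Phi_kap]
  refine ⟨_, ⟨?_, Phi_mem d hx hDn⟩, rfl⟩
  change -((0 : ℚ) + cc d (0, z) n) ≠ 0
  rw [zero_add, neg_ne_zero, cc]
  refine div_ne_zero ?_ hDn
  change ev d.β z * n - 2 * 0 ≠ 0
  rw [mul_zero, sub_zero]
  exact mul_ne_zero hβ hn

end Pool.Agent.Q6.FD
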