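import Pool.Agent.Q6.FD.Place

/-! The two conic fibrations of a double cover of the variety of flags. -/

set_option autoImplicit false
set_option maxHeartbeats 400000

namespace Pool.Agent.Q6.FD

open MvPolynomial Pool.Agent.TH178.HI

/-- the discriminant of a squarefree polynomial is not zero -/
theorem disc_ne {R : Type} [CommRing R] [IsDomain R] [UniqueFactorizationMonoid R]
    (h2 : (2 : R) ≠ 0) {A B C₀ : R}
    (hsq : Squarefree (Polynomial.C A * Polynomial.X ^ 2 + Polynomial.C B * Polynomial.X +
      Polynomial.C C₀)) (hne : ¬ (A = 0 ∧ B = 0)) : B ^ 2 - 4 * A * C₀ ≠ 0 := by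
  intro h0
  by_cases hA : A = 0
  · subst hA
    have h1 : B ^ 2 = 0 := by linear_combination h0
    exact hne ⟨rfl, (pow_eq_zero_iff two_ne_zero).1 h1⟩
  · set P := Polynomial.C A * Polynomial.X ^ 2 + Polynomial.C B * Polynomial.X +
      Polynomial.C C₀ with hP
    have h1 : (Polynomial.C (2 * A) * Polynomial.X + Polynomial.C B) ^ 2 =
        P * Polynomial.C (4 * A) := by
      have h3 : Polynomial.C (B ^ 2) = Polynomial.C (4 * A * C₀) := by rw [sub_eq_zero.1 h0]
      have h4 : (Polynomial.C (4 : R)) = 4 := rfl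
      have h5 : (Polynomial.C (2 : R)) = 2 := rfl
      simp only [map_mul, map_pow, h4] at h3
      rw [hP]
      simp only [map_mul, h4, h5]
      linear_combination h3
    have h3 : P ∣ Polynomial.C (2 * A) * Polynomial.X + Polynomial.C B :=
      (hsq.dvd_pow_iff_dvd two_ne_zero).1 ⟨_, h1⟩
    have h4 : Polynomial.C (2 * A) * Polynomial.X + Polynomial.C B ≠ 0 := by
      intro h5
      have h6 := congrArg (fun p => Polynomial.coeff p 1) h5
      simp at h6
      rcases h6 with h6 | h6
      · exact h2 h6
      · exact hA h6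
    have h5 := Polynomial.natDegree_le_of_dvd h3 h4
    rw [hP, Polynomial.natDegree_quadratic hA] at h5
    have h6 := h5.trans Polynomial.natDegree_linear_le
    omega

theorem conic {k K : Type} [Field k] [CharZero k] [Field K] [Algebra k K] {s w : K} {u : Fin 2 → K}
    (hx : AlgebraicIndependent k (Fin.cons s u : Fin 3 → K)) {G : MvPolynomial (Fin 3) k}
    {A B C₀ : MvPolynomial (Fin 2) k}
    (hG : G = rename Fin.succ A * X 0 ^ 2 + rename Fin.succ B * X 0 + rename Fin.succ C₀)
    (hsq : Squarefree G) (hne : ∀ h : MvPolynomial (Fin 2) k, rename Fin.succ h ≠ G)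
    (hw : w ^ 2 = aeval (Fin.cons s u : Fin 3 → K) G)
    (htop : IntermediateField.adjoin k (Set.range (Fin.cons s u : Fin 3 → K) ∪ {w}) = ⊤) :
    IsConicOver (IntermediateField.adjoin k (Set.range u)) := by
  classical
  have hu : AlgebraicIndependent k u := by
    have h := hx.comp (Fin.succ : Fin 2 → Fin 3) (Fin.succ_injective 2)
    have e : (Fin.cons s u : Fin 3 → K) ∘ (Fin.succ : Fin 2 → Fin 3) = u := by
      funext j
      rw [Function.comp_apply, Fin.cons_succ]
    rwa [e] at h
  have hmem : ∀ f : MvPolynomial (Fin 2) k,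
      aeval u f ∈ IntermediateField.adjoin k (Set.range u) := by
    intro f
    have h1 : aeval u f ∈ Algebra.adjoin k (Set.range u) := by
      rw [Algebra.adjoin_range_eq_range_aeval]
      exact ⟨f, rfl⟩
    exact IntermediateField.algebra_adjoin_le_adjoin _ _ h1
  have hfs : finSuccEquiv k 2 G = Polynomial.C A * Polynomial.X ^ 2 + Polynomial.C B * Polynomial.X +
      Polynomial.C C₀ := by
    rw [hG, map_add, map_add, map_mul, map_mul, map_pow, finSucc_rename, finSucc_rename,
      finSucc_rename, finSuccEquiv_X_zero]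
  have hsq' : Squarefree (Polynomial.C A * Polynomial.X ^ 2 + Polynomial.C B * Polynomial.X +
      Polynomial.C C₀) := by
    rw [← hfs]
    intro a ha
    have h1 : (finSuccEquiv k 2).symm a * (finSuccEquiv k 2).symm a ∣ G := by
      rw [← map_mul]
      have h2 := (map_dvd_iff (finSuccEquiv k 2).symm).2 ha
      rwa [AlgEquiv.symm_apply_apply] at h2
    have h2 := (hsq _ h1).map (finSuccEquiv k 2)
    rwa [AlgEquiv.apply_symm_apply] at h2
  have hdisc : B ^ 2 - 4 * A * C₀ ≠ 0 := by
    refine disc_ne two_ne_zero hsq' ?_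
    rintro ⟨rfl, rfl⟩
    apply hne C₀
    rw [hG]
    simp
  have hcs : ∀ f : MvPolynomial (Fin 2) k,
      aeval (Fin.cons s u : Fin 3 → K) (rename Fin.succ f) = aeval u f := by
    intro f
    have e : (Fin.cons s u : Fin 3 → K) ∘ (Fin.succ : Fin 2 → Fin 3) = u := by
      funext j
      rw [Function.comp_apply, Fin.cons_succ]
    rw [aeval_rename, e]
  refine ⟨aeval u A, aeval u B, aeval u C₀, s, w, hmem A, hmem B, hmem C₀, ?_, ?_, ?_, ?_⟩
  · intro h0
    apply hdisc
    apply (algebraicIndependent_iff.1 hu)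
    simp only [map_sub, map_mul, map_pow, map_ofNat]
    exact h0
  · have h1 := hx.transcendental_adjoin (s := Set.range Fin.succ) (i := 0) (by simp)
    have h2 : (Fin.cons s u : Fin 3 → K) '' Set.range Fin.succ = Set.range u := by
      rw [← Set.range_comp]
      rfl
    rw [h2] at h1
    intro h3
    apply h1
    exact IntermediateField.isAlgebraic_adjoin_iff.1 h3
  · rw [hw, hG]
    simp only [map_add, map_mul, map_pow, hcs, aeval_X, Fin.cons_zero]
  · rw [← top_le_iff, ← htop, IntermediateField.adjoin_le_iff]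
    rintro z (⟨j, rfl⟩ | hz)
    · refine Fin.cases ?_ (fun j => ?_) j
      · exact IntermediateField.subset_adjoin _ _ (Or.inr (Or.inl rfl))
      · exact IntermediateField.subset_adjoin _ _
          (Or.inl (IntermediateField.subset_adjoin _ _ ⟨j, rfl⟩))
    · rw [Set.mem_singleton_iff.1 hz]
      exact IntermediateField.subset_adjoin _ _ (Or.inr (Or.inr rfl))

end Pool.Agent.Q6.FD
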