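import Pool.Agent.Q35.HB.Covh
import Pool.Agent.Q225.HB.Hen
import Pool.Agent.Q224.HB.SC
import Pool.Agent.Q95.HB.LG
import Pool.Agent.Q14.HB.Clo
import Pool.Agent.Q14.HB.Ext

/-! Two conic fibrations, the base of one of them an affine space: if over the generic point of
every prime divisor of this affine space there is a place which is trivial on the base of the
second fibration, there are no covers pulled back from both bases and no common invariants.
(The proof follows `Pool.Agent.Q35.HB.Covh`, where this is done for smooth hypersurfaces.) -/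

set_option autoImplicit false
set_option maxHeartbeats 400000

namespace Pool.Agent.Q6.FD

open MvPolynomial Pool.Agent.Q35.HB Pool.Agent.Helper165.P1 Pool.Agent.TH178.HI

/-- Over the generic point of every prime divisor `π = 0` of the affine space with coordinates `x`
there is a place of `K` which is trivial on `L'`. -/
def Places {ι k K : Type} [Fintype ι] [Field k] [Field K] [Algebra k K] (x : ι → K)
    (L' : IntermediateField k K) : Prop :=
  ∀ π : MvPolynomial ι k, Irreducible π → ∀ a : ι → k, ∑ t, C (a t) * pderiv t π ≠ 0 →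
    ∃ (Ω : Type) (_ : Field Ω) (_ : CharZero Ω) (_ : IsAlgClosed Ω) (_ : Algebra k Ω)
      (z : ι → Ω) (σ : K →+* Pui Ω), (∀ f, aeval z f = 0 ↔ π ∣ f) ∧
      (∀ c : k, σ (algebraMap k K c) = ps Ω (PowerSeries.C (algebraMap k Ω c))) ∧
      (∀ t, σ (x t) = ps Ω (PowerSeries.C (z t) +
        PowerSeries.C (algebraMap k Ω (a t)) * PowerSeries.X)) ∧
      (∀ r : K, ∃ f g : PowerSeries Ω, g ≠ 0 ∧ σ r * ps Ω g = ps Ω f) ∧
      ∃ ρ : L' →+* PowerSeries Ω, ∀ y : L', σ (y : K) = ps Ω (ρ y)

section

variable {ι k K : Type} [Fintype ι] [DecidableEq ι] [Field k] [CharZero k] [Field K] [Algebra k K]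
  {x : ι → K} {L' : IntermediateField k K}

theorem no_covers (hx : AlgebraicIndependent k x)
    (hL : IsConicOver (IntermediateField.adjoin k (Set.range x))) (hPL : Places x L')
    (M : Type) [Field M] [Algebra k M] [Algebra K M] [IsScalarTower k K M]
    [FiniteDimensional K M] (hM1 : ∀ a : M, IsAlgebraic k a → a ∈ Set.range (algebraMap k M))
    (hM2 : IntermediateField.adjoin K
      {z : M | IsAlgebraic (IntermediateField.adjoin k (Set.range x)) z} = ⊤)
    (hM3 : IntermediateField.adjoin K {z : M | IsAlgebraic L' z} = ⊤) :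
    Function.Surjective (algebraMap K M) := by
  classical
  have hK : CharZero K := charZero_of_injective_algebraMap (algebraMap k K).injective
  set L := IntermediateField.adjoin k (Set.range x) with hLdef
  have hclo : ∀ a : K, IsAlgebraic L a → a ∈ L := Pool.Agent.Q14.HB.clo k K L hL
  let N := LamK M L
  have hN : ∀ z : M, z ∈ N ↔ IsAlgebraic L z := fun z => mem_LamK
  have hLN : ∀ y ∈ L, algebraMap K M y ∈ N := fun y hy => algebraMap_mem_LamK hy
  have hxL : ∀ t : ι, x t ∈ L := fun t => IntermediateField.subset_adjoin _ _ ⟨t, rfl⟩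
  let x' : ι → N := fun t => ⟨algebraMap K M (x t), hLN _ (hxL t)⟩
  have hval : ∀ f : MvPolynomial ι k, ((aeval x' f : N) : M) = algebraMap K M (aeval x f) := by
    intro f
    have h1 : N.val.comp (aeval x') =
        (IsScalarTower.toAlgHom k K M).comp (aeval x) := by
      apply MvPolynomial.algHom_ext
      intro t
      simp [x']
    exact DFunLike.congr_fun h1 f
  have hinj : ∀ f : MvPolynomial ι k, aeval x' f = 0 → f = 0 := by
    intro f hf
    have h1 := hval f
    rw [hf] at h1
    have h2 : aeval x f = 0 := by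
      apply (algebraMap K M).injective
      rw [← h1, map_zero]; rfl
    exact (algebraicIndependent_iff.1 hx) f h2
  have hind : AlgebraicIndependent k x' := algebraicIndependent_iff.2 hinj
  set A := IntermediateField.adjoin k (Set.range x') with hA
  -- the functions on the base lie in `A`
  have hLA : ∀ y (hy : y ∈ L), (⟨algebraMap K M y, hLN y hy⟩ : N) ∈ A := by
    intro y hy
    have hy' := hy
    rw [hLdef] at hy'
    induction hy' using IntermediateField.adjoin_induction with
    | mem y hy1 =>
      obtain ⟨t, rfl⟩ := hy1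
      exact IntermediateField.subset_adjoin _ _ ⟨t, rfl⟩
    | algebraMap c =>
      have : (⟨algebraMap K M (algebraMap k K c), hLN _ hy⟩ : N) = algebraMap k N c := by
        apply Subtype.ext
        exact (IsScalarTower.algebraMap_apply k K M c).symm
      rw [this]
      exact A.algebraMap_mem c
    | add y z hy1 hz1 h1 h2 =>
      have : (⟨algebraMap K M (y + z), hLN _ hy⟩ : N) =
          ⟨algebraMap K M y, hLN _ hy1⟩ + ⟨algebraMap K M z, hLN _ hz1⟩ := by
        apply Subtype.ext
        exact map_add _ _ _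
      rw [this]
      exact add_mem (h1 hy1) (h2 hz1)
    | mul y z hy1 hz1 h1 h2 =>
      have : (⟨algebraMap K M (y * z), hLN _ hy⟩ : N) =
          ⟨algebraMap K M y, hLN _ hy1⟩ * ⟨algebraMap K M z, hLN _ hz1⟩ := by
        apply Subtype.ext
        exact map_mul _ _ _
      rw [this]
      exact mul_mem (h1 hy1) (h2 hz1)
    | inv y hy1 h1 =>
      have : (⟨algebraMap K M y⁻¹, hLN _ hy⟩ : N) = (⟨algebraMap K M y, hLN _ hy1⟩)⁻¹ := by
        apply Subtype.ext
        exact map_inv₀ _ _
      rw [this]
      exact inv_mem (h1 hy1)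
  let θ : L →+* A :=
    { toFun := fun y => ⟨⟨algebraMap K M (y : K), hLN y y.2⟩, hLA y y.2⟩
      map_one' := by apply Subtype.ext; apply Subtype.ext; exact map_one _
      map_mul' := by
        intro y z; apply Subtype.ext; apply Subtype.ext; exact map_mul _ _ _
      map_zero' := by apply Subtype.ext; apply Subtype.ext; exact map_zero _
      map_add' := by
        intro y z; apply Subtype.ext; apply Subtype.ext; exact map_add _ _ _ }
  have halg : ∀ r : N, IsAlgebraic A r := by
    intro r
    obtain ⟨p, hp, h0⟩ := (hN r).1 r.2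
    refine ⟨p.map θ, (Polynomial.map_ne_zero_iff θ.injective).2 hp, ?_⟩
    apply Subtype.ext
    have h1 : ((Polynomial.aeval r (p.map θ) : N) : M) =
        Polynomial.eval₂ ((algebraMap N M).comp ((algebraMap A N).comp θ)) (r : M) p := by
      rw [Polynomial.aeval_def, Polynomial.eval₂_map]
      exact Polynomial.hom_eval₂ p _ (algebraMap N M) r
    rw [h1]
    exact h0
  -- the derivations
  have hD : ∀ s : ι, ∃ D : Derivation k N N, ∀ t, D (x' t) = if s = t then 1 else 0 := by
    intro s
    refine Pool.Agent.Q224.HB.dext ι k N x' (fun t => if s = t then 1 else 0) (fun f hf => ?_)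
    rw [hinj f hf]
    simp
  choose D hD using hD
  have hint := Pool.Agent.Q95.HB.lg ι k N x' hind halg D hD ?_
  · have hall := Pool.Agent.Q224.HB.sc ι k N x' hind halg ?_ D hD hint
    · -- conclusion
      have hbot : (⊤ : IntermediateField K M) ≤ ⊥ := by
        rw [← hM2, IntermediateField.adjoin_le_iff]
        intro z hz
        have hzN : z ∈ N := (hN z).2 hz
        have hle : A ≤ ((⊥ : IntermediateField K M).restrictScalars k).comap N.val := by
          rw [hA, IntermediateField.adjoin_le_iff]
          rintro _ ⟨t, rfl⟩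
          exact (⊥ : IntermediateField K M).algebraMap_mem (x t)
        exact hle (hall ⟨z, hzN⟩)
      intro z
      have := hbot (IntermediateField.mem_top (x := z))
      exact IntermediateField.mem_bot.1 this
    · intro r hr
      have h1 : IsAlgebraic k (r : M) := hr.algHom N.val
      obtain ⟨c, hc⟩ := hM1 _ h1
      exact ⟨c, Subtype.ext hc⟩
  · intro π hπ a ha
    obtain ⟨Ω, iF, iC, iA, iG, z, σ, hz, hσk, hσx, hfr, ρ, hρ⟩ := hPL π hπ a ha
    refine ⟨Ω, iF, iC, iA, iG, z, hz, ?_⟩
    intro τ hτk hτx r
    have hcomp : ∀ (y : K) (h : algebraMap K M y ∈ N), y ∈ L →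
        τ ⟨algebraMap K M y, h⟩ = σ y := by
      intro y hy0 hy
      rw [hLdef] at hy
      induction hy using IntermediateField.adjoin_induction with
      | mem y hy1 =>
        obtain ⟨t, rfl⟩ := hy1
        rw [hσx t]
        exact hτx t
      | algebraMap c =>
        rw [hσk, ← hτk]
        congr 1
        apply Subtype.ext
        exact (IsScalarTower.algebraMap_apply k K M c).symm
      | add y z hy1 hz1 h1 h2 =>
        rw [map_add σ, ← h1 (hLN _ hy1), ← h2 (hLN _ hz1), ← map_add τ]
        congr 1
        apply Subtype.ext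
        exact map_add _ _ _
      | mul y z hy1 hz1 h1 h2 =>
        rw [map_mul σ, ← h1 (hLN _ hy1), ← h2 (hLN _ hz1), ← map_mul τ]
        congr 1
        apply Subtype.ext
        exact map_mul _ _ _
      | inv y hy1 h1 =>
        rw [map_inv₀ σ, ← h1 (hLN _ hy1), ← map_inv₀ τ]
        congr 1
        apply Subtype.ext
        exact map_inv₀ _ _
    obtain ⟨τ', h1, h2⟩ := Pool.Agent.Q14.HB.ext k K M (Pui Ω) L hclo N hN σ τ hcomp
    have hfr' : ∀ a : K, τ' (algebraMap K M a) ∈ Fr Ω := fun r => by
      obtain ⟨f, g, hg, h⟩ := hfr r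
      exact ⟨f, g, hg, by rw [h1]; exact h⟩
    have hle : (⊤ : IntermediateField K M) ≤ frField τ' hfr' := by
      rw [← hM3, IntermediateField.adjoin_le_iff]
      rintro z ⟨p, hp, hz⟩
      change τ' z ∈ Fr Ω
      have h2 : (p.map ((ps Ω).comp ρ)).IsRoot (τ' z) := by
        rw [Polynomial.IsRoot.def, Polynomial.eval_map]
        have h3 := congrArg τ' hz
        rw [map_zero, Polynomial.aeval_def, Polynomial.hom_eval₂] at h3
        rw [← h3]
        congr 1
        ext y
        have h4 : τ' (algebraMap K M (y : K)) = ps Ω (ρ y) := by rw [h1]; exact hρ y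
        rw [RingHom.comp_apply, RingHom.comp_apply, ← h4]
        rfl
      obtain ⟨f, hf⟩ := Pool.Agent.Q225.HB.hen Ω _ ρ p hp _ h2
      rw [← hf]
      exact fr_ps f
    have h3 : τ' (r : M) ∈ Fr Ω :=
      mem_frField.1 (hle (IntermediateField.mem_top (x := (r : M))))
    rw [h2] at h3
    exact h3

theorem no_invariants (hx : AlgebraicIndependent k x)
    (hL : IsConicOver (IntermediateField.adjoin k (Set.range x))) (hL' : IsConicOver L')
    (hPL : Places x L') (y : K) (hy : IsAlgebraic (IntermediateField.adjoin k (Set.range x)) y)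
    (hy' : IsAlgebraic L' y) : y ∈ Set.range (algebraMap k K) := by
  classical
  have hK : CharZero K := charZero_of_injective_algebraMap (algebraMap k K).injective
  have hyL := Pool.Agent.Q14.HB.clo k K _ hL y hy
  have hyL' := Pool.Agent.Q14.HB.clo k K _ hL' y hy'
  by_contra hcon
  have hinj : ∀ f : MvPolynomial ι k, aeval x f = 0 → f = 0 := fun f hf =>
    (algebraicIndependent_iff.1 hx) f hf
  -- `y` as a reduced fraction
  obtain ⟨p, q, hpq, hq0, hyq⟩ : ∃ p q : MvPolynomial ι k, IsRelPrime q p ∧ q ≠ 0 ∧
      y * aeval x q = aeval x p := by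
    have h1 := hyL
    rw [IntermediateField.mem_adjoin_iff_div] at h1
    obtain ⟨r, hr, s, hs, hrs⟩ := h1
    rw [Algebra.adjoin_range_eq_range_aeval] at hr hs
    obtain ⟨p0, hp0⟩ := hr
    obtain ⟨q0, hq0⟩ := hs
    have hs0 : s ≠ 0 := by
      rintro rfl
      apply hcon
      rw [hrs, div_zero]
      exact ⟨0, map_zero _⟩
    have hq00 : q0 ≠ 0 := by
      rintro rfl
      apply hs0
      rw [← hq0]
      exact map_zero _
    obtain ⟨q, p, c, hrel, hcq, hcp⟩ := UniqueFactorizationMonoid.exists_reduced_factors q0 hq00 p0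
    have hc0 : c ≠ 0 := by
      rintro rfl
      apply hq00
      rw [← hcq, zero_mul]
    refine ⟨p, q, hrel, ?_, ?_⟩
    · rintro rfl
      apply hq00
      rw [← hcq, mul_zero]
    · have h4 : aeval x c ≠ 0 := fun h => hc0 (hinj c h)
      apply mul_left_cancel₀ h4
      have h5 : y * s = r := by
        rw [hrs, div_mul_cancel₀ _ hs0]
      have h6 : s = aeval x (c * q) := by
        rw [hcq, ← hq0]; rfl
      have h7 : r = aeval x (c * p) := by
        rw [hcp, ← hp0]; rfl
      rw [h6, h7] at h5
      simp only [map_mul] at h5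
      rw [← h5]; ring
  -- a value which is taken
  obtain ⟨c, hc⟩ : ∃ c : k, ¬ IsUnit (p - C c * q) := by
    by_contra h
    push Not at h
    obtain ⟨u, -, hu⟩ := isUnit_iff_eq_C_of_isReduced.1 (h 0)
    obtain ⟨v, -, hv⟩ := isUnit_iff_eq_C_of_isReduced.1 (h 1)
    rw [map_zero, zero_mul, sub_zero] at hu
    rw [map_one, one_mul, hu] at hv
    have hq : q = C (u - v) := by rw [map_sub, ← hv]; ring
    apply hcon
    have huv : algebraMap k K (u - v) ≠ 0 := by
      intro h0
      apply hq0
      rw [hq]
      rw [(map_eq_zero_iff _ (algebraMap k K).injective).1 h0, map_zero]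
    refine ⟨u / (u - v), ?_⟩
    rw [map_div₀, div_eq_iff huv]
    rw [hu, hq, aeval_C, aeval_C] at hyq
    exact hyq.symm
  have hne : p - C c * q ≠ 0 := by
    intro h
    apply hcon
    have h1 : p = C c * q := sub_eq_zero.1 h
    rw [h1, map_mul, aeval_C] at hyq
    have h2 : aeval x q ≠ 0 := fun h => hq0 (hinj q h)
    exact ⟨c, (mul_right_cancel₀ h2 hyq).symm⟩
  obtain ⟨π, hπ, hπd⟩ := WfDvdMonoid.exists_irreducible_factor hc hne
  have hπq : ¬ π ∣ q := by
    intro h
    apply hπ.not_isUnit
    apply hpq h
    have : p = (p - C c * q) + C c * q := by ring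
    rw [this]
    exact dvd_add hπd (h.mul_left _)
  obtain ⟨t₀, ht₀⟩ := exists_pderiv_ne_zero hπ
  let a : ι → k := fun t => if t = t₀ then 1 else 0
  have ha0 : ∑ t, C (a t) * pderiv t π = pderiv t₀ π := by
    rw [Finset.sum_eq_single t₀]
    · simp [a]
    · intro t _ ht
      simp [a, ht]
    · intro h
      exact absurd (Finset.mem_univ _) h
  obtain ⟨Ω, iF, iC, iA, iG, ξ, σ, hπ1, hσk, hσx, hfr, ρ, hρ⟩ :=
    hPL π hπ a (by rw [ha0]; exact ht₀)
  -- the values of `σ` at polynomials
  let χ : MvPolynomial ι k →+* PowerSeries Ω :=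
    eval₂Hom (PowerSeries.C.comp (algebraMap k Ω))
      (fun t : ι => PowerSeries.C (ξ t) + PowerSeries.C (algebraMap k Ω (a t)) * PowerSeries.X)
  have hχ1 : ∀ f, σ (aeval x f) = ps Ω (χ f) := by
    intro f
    have h1 : (σ.comp ((aeval x : MvPolynomial ι k →ₐ[k] K) : MvPolynomial ι k →+* K)) =
        (ps Ω).comp χ := by
      apply MvPolynomial.ringHom_ext
      · intro c
        simp only [RingHom.comp_apply, RingHom.coe_coe, aeval_C, χ, eval₂Hom_C]
        exact hσk c
      · intro t
        simp only [RingHom.comp_apply, RingHom.coe_coe, aeval_X, χ, eval₂Hom_X']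
        exact hσx t
    exact RingHom.congr_fun h1 f
  have hχ2 : ∀ f, PowerSeries.constantCoeff (χ f) = aeval ξ f := by
    intro f
    have h1 : (PowerSeries.constantCoeff (R := Ω)).comp χ =
        (((aeval ξ : MvPolynomial ι k →ₐ[k] Ω) : MvPolynomial ι k →+* Ω)) := by
      apply MvPolynomial.ringHom_ext
      · intro c
        simp [χ]
      · intro t
        simp [χ]
    exact RingHom.congr_fun h1 f
  have hyc : y - algebraMap k K c ∈ L' := sub_mem hyL' (IntermediateField.algebraMap_mem _ c)
  have h1 : (y - algebraMap k K c) * aeval x q = aeval x (p - C c * q) := by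
    rw [map_sub, map_mul, aeval_C, ← hyq]; ring
  have h2 := congrArg σ h1
  rw [map_mul, hχ1, hχ1] at h2
  have h3 := hρ ⟨_, hyc⟩
  simp only at h3
  rw [h3, ← map_mul] at h2
  have h4 := congrArg PowerSeries.constantCoeff (Pool.Agent.Q35.HB.ps_injective Ω h2)
  rw [map_mul, hχ2, hχ2] at h4
  have hπ0 : aeval ξ π = 0 := (hπ1 π).2 dvd_rfl
  obtain ⟨w, hw⟩ := hπd
  rw [hw, map_mul, hπ0, zero_mul] at h4
  rcases mul_eq_zero.1 h4 with h5 | h5
  · have h6 : (⟨y - algebraMap k K c, hyc⟩ : L') = 0 := by
      by_contra h7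
      have h8 : IsUnit (ρ ⟨y - algebraMap k K c, hyc⟩) := (isUnit_iff_ne_zero.2 h7).map ρ
      have h9 := h8.map (PowerSeries.constantCoeff (R := Ω))
      rw [h5] at h9
      exact not_isUnit_zero h9
    have h7 : y - algebraMap k K c = 0 := congrArg Subtype.val h6
    exact hcon ⟨c, (sub_eq_zero.1 h7).symm⟩
  · exact hπq ((hπ1 q).1 h5)

end

end Pool.Agent.Q6.FD
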