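import Pool.Agent.Q175.HB.Emb0

/-! The generic point of a prime divisor of affine space and a further transcendental element. -/

set_option autoImplicit false
set_option maxHeartbeats 400000

namespace Pool.Agent.Q6.FD

open MvPolynomial

theorem finSucc_C {k : Type} [Field k] {n : ℕ} (c : k) :
    finSuccEquiv k n (C c) = Polynomial.C (C c) := (finSuccEquiv k n).commutes c

theorem finSucc_rename {k : Type} [Field k] {n : ℕ} (f : MvPolynomial (Fin n) k) :
    finSuccEquiv k n (rename Fin.succ f) = Polynomial.C f := by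
  induction f using MvPolynomial.induction_on with
  | C a =>
    rw [rename_C, finSucc_C]
  | add p q hp hq => rw [map_add, map_add, hp, hq, map_add]
  | mul_X p i hp => rw [map_mul, map_mul, hp, rename_X, finSuccEquiv_X_succ, map_mul]

theorem exists_generic {k : Type} [Field k] [CharZero k] {n : ℕ} {π : MvPolynomial (Fin n) k}
    (hπ : Irreducible π) : ∃ (Ω : Type) (_ : Field Ω) (_ : CharZero Ω) (_ : IsAlgClosed Ω)
      (_ : Algebra k Ω) (z : Fin n → Ω) (t : Ω),
      (∀ f : MvPolynomial (Fin n) k, aeval z f = 0 ↔ π ∣ f) ∧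
      ∀ g : MvPolynomial (Fin (n + 1)) k, aeval (Fin.cons t z : Fin (n + 1) → Ω) g = 0 ↔
        rename Fin.succ π ∣ g := by
  have hpr : (Ideal.span {π}).IsPrime := (Ideal.span_singleton_prime hπ.ne_zero).2 hπ.prime
  let R := MvPolynomial (Fin n) k ⧸ Ideal.span {π}
  have : IsDomain R := Ideal.Quotient.isDomain _
  let Q := FractionRing R
  let F := FractionRing (Polynomial Q)
  let Ω := AlgebraicClosure F
  let i : Polynomial Q →+* Ω := (algebraMap F Ω).comp (algebraMap (Polynomial Q) F)
  have hi : Function.Injective i :=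
    (algebraMap F Ω).injective.comp (IsFractionRing.injective (Polynomial Q) F)
  let μ : MvPolynomial (Fin n) k →+* Q := (algebraMap R Q).comp (Ideal.Quotient.mk _)
  have hμ : ∀ f, μ f = 0 ↔ π ∣ f := by
    intro f
    rw [← Ideal.mem_span_singleton, ← Ideal.Quotient.eq_zero_iff_mem]
    exact map_eq_zero_iff _ (IsFractionRing.injective R Q)
  let φ : MvPolynomial (Fin n) k →+* Ω := i.comp (Polynomial.C.comp μ)
  let _ : Algebra k Ω := (φ.comp (C : k →+* MvPolynomial (Fin n) k)).toAlgebra
  have hal : ∀ c : k, algebraMap k Ω c = φ (C c) := fun c => rfl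
  have hch : CharZero Ω := charZero_of_injective_algebraMap (algebraMap k Ω).injective
  refine ⟨Ω, inferInstance, hch, inferInstance, inferInstance, fun j => φ (X j), i Polynomial.X,
    ?_, ?_⟩
  · intro f
    have h1 : aeval (fun j => φ (X j)) f = φ f := by
      have e : ((aeval (fun j => φ (X j)) : MvPolynomial (Fin n) k →ₐ[k] Ω) :
          MvPolynomial (Fin n) k →+* Ω) = φ := by
        apply MvPolynomial.ringHom_ext
        · intro c
          rw [RingHom.coe_coe, aeval_C]
          rfl
        · intro j
          rw [RingHom.coe_coe, aeval_X]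
      exact RingHom.congr_fun e f
    rw [h1, ← hμ]
    change i (Polynomial.C (μ f)) = 0 ↔ _
    rw [map_eq_zero_iff i hi, Polynomial.C_eq_zero]
  · intro g
    have h1 : aeval (Fin.cons (i Polynomial.X) (fun j => φ (X j)) : Fin (n + 1) → Ω) g =
        i ((finSuccEquiv k n g).map μ) := by
      have e : ((aeval (Fin.cons (i Polynomial.X) (fun j => φ (X j)) : Fin (n + 1) → Ω) :
          MvPolynomial (Fin (n + 1)) k →ₐ[k] Ω) : MvPolynomial (Fin (n + 1)) k →+* Ω) =
          i.comp ((Polynomial.mapRingHom μ).comp (finSuccEquiv k n).toRingEquiv.toRingHom) := by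
        apply MvPolynomial.ringHom_ext
        · intro c
          rw [RingHom.coe_coe, aeval_C]
          change _ = i (Polynomial.mapRingHom μ (finSuccEquiv k n (C c)))
          rw [finSucc_C, Polynomial.coe_mapRingHom, Polynomial.map_C]
          rfl
        · intro j
          rw [RingHom.coe_coe, aeval_X]
          change _ = i (Polynomial.mapRingHom μ (finSuccEquiv k n (X j)))
          refine Fin.cases ?_ (fun j => ?_) j
          · rw [finSuccEquiv_X_zero, Polynomial.coe_mapRingHom, Polynomial.map_X, Fin.cons_zero]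
          · rw [finSuccEquiv_X_succ, Polynomial.coe_mapRingHom, Polynomial.map_C, Fin.cons_succ]
            rfl
      exact RingHom.congr_fun e g
    rw [h1, map_eq_zero_iff i hi]
    constructor
    · intro h
      have h2 : Polynomial.C π ∣ finSuccEquiv k n g := by
        rw [Polynomial.C_dvd_iff_dvd_coeff]
        intro m
        rw [← hμ]
        have := congrArg (fun p => Polynomial.coeff p m) h
        simpa using this
      rw [← finSucc_rename] at h2
      exact (map_dvd_iff (finSuccEquiv k n)).1 h2
    · rintro ⟨q, rfl⟩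
      rw [map_mul, finSucc_rename, Polynomial.map_mul, Polynomial.map_C, (hμ π).2 dvd_rfl,
        Polynomial.C_0, zero_mul]

/-- the substitution which expresses a function of the line `(s, q - p s)` by `s, p, q` -/
noncomputable def lineFn {k : Type} [Field k] : MvPolynomial (Fin 2) k →ₐ[k] MvPolynomial (Fin 3) k :=
  aeval ![X 0, X 2 - X 1 * X 0]

theorem not_dvd_lineFn {k : Type} [Field k] [CharZero k] {π h : MvPolynomial (Fin 2) k}
    (hπ : Irreducible π) (hh : h ≠ 0) : ¬ rename Fin.succ π ∣ lineFn h := by
  rintro ⟨Q, hQ⟩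
  let θ : MvPolynomial (Fin 3) k →ₐ[k] MvPolynomial (Fin 3) k := aeval ![X 0, X 1, X 2 + X 1 * X 0]
  have h1 : θ (lineFn h) = rename ![0, 2] h := by
    have e : θ.comp lineFn = rename ![0, 2] := by
      apply MvPolynomial.algHom_ext
      intro j
      fin_cases j
      · simp [θ, lineFn]
      · simp [θ, lineFn]
    exact DFunLike.congr_fun e h
  have hinj : Function.Injective (![0, 2] : Fin 2 → Fin 3) := by
    intro a b hab
    fin_cases a <;> fin_cases b <;> simp_all
  have h2 : rename ![0, 2] h ≠ (0 : MvPolynomial (Fin 3) k) := by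
    intro h0
    exact hh (rename_injective _ hinj (by rw [h0, map_zero]))
  have h3 := congrArg θ hQ
  rw [h1, map_mul] at h3
  set P := θ (rename Fin.succ π) with hP
  have hP0 : P ≠ 0 := by
    intro h0
    rw [h0, zero_mul] at h3
    exact h2 h3
  have hQ0 : θ Q ≠ 0 := by
    intro h0
    rw [h0, mul_zero] at h3
    exact h2 h3
  have h4 := congrArg (degreeOf 1) h3
  rw [degreeOf_mul_eq hP0 hQ0] at h4
  have h5 : degreeOf 1 (rename ![0, 2] h : MvPolynomial (Fin 3) k) = 0 := by
    by_contra hne
    have h6 : (1 : Fin 3) ∈ (rename ![0, 2] h : MvPolynomial (Fin 3) k).vars :=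
      mem_vars_iff_degreeOf_ne_zero.2 hne
    have h7 := vars_rename _ _ h6
    rw [Finset.mem_image] at h7
    obtain ⟨j, -, hj⟩ := h7
    fin_cases j <;> simp at hj
  rw [h5] at h4
  have h6 : (1 : Fin 3) ∉ P.vars := by
    intro h7
    exact mem_vars_iff_degreeOf_ne_zero.1 h7 (by omega)
  have h7 : ∀ s a b : k, eval ![s, a, b] P = eval ![a, b + a * s] π := by
    intro s a b
    have e : (eval ![s, a, b]).comp ((θ.comp (rename Fin.succ) : MvPolynomial (Fin 2) k →ₐ[k] _) :
        MvPolynomial (Fin 2) k →+* _) = eval ![a, b + a * s] := by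
      apply MvPolynomial.ringHom_ext
      · intro c
        simp [θ]
      · intro j
        fin_cases j
        · simp [θ]
        · simp [θ]
    exact RingHom.congr_fun e π
  have h8 : ∀ s a b : k, eval ![s, a, b] P = eval ![s, 0, b] P := by
    intro s a b
    rw [eval_eq', eval_eq']
    refine Finset.sum_congr rfl fun d hd => ?_
    have h9 : d 1 = 0 := by
      by_contra hne
      exact h6 ((mem_vars_iff_mem_support 1).2 ⟨d, hd, Finsupp.mem_support_iff.2 hne⟩)
    rw [Fin.prod_univ_three, Fin.prod_univ_three, h9]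
    simp
  have h9 : ∀ a b : k, a ≠ 0 → eval ![a, b] π = eval ![0, 0] π := by
    intro a b ha
    have e1 := h7 (b / a) a 0
    have e2 := h7 (b / a) 0 0
    rw [h8] at e1
    rw [e1] at e2
    rw [show (0 : k) + a * (b / a) = b by field_simp; ring, show (0 : k) + 0 * (b / a) = 0 by ring]
      at e2
    exact e2
  have h10 : X 0 * (π - C (eval ![0, 0] π)) = 0 := by
    apply MvPolynomial.funext
    intro v
    rw [map_mul, map_sub, eval_X, eval_C, map_zero]
    by_cases hv : v 0 = 0
    · rw [hv, zero_mul]
    · have e : v = ![v 0, v 1] := by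
        funext j
        fin_cases j <;> rfl
      rw [e, h9 _ _ hv, sub_self, mul_zero]
  have h11 : π = C (eval ![0, 0] π) := by
    rcases mul_eq_zero.1 h10 with h12 | h12
    · exact absurd h12 (X_ne_zero 0)
    · exact sub_eq_zero.1 h12
  by_cases h0 : eval ![0, 0] π = 0
  · apply hπ.ne_zero
    rw [h11, h0, map_zero]
  · apply hπ.not_isUnit
    rw [h11]
    exact (isUnit_iff_ne_zero.2 h0).map C

/-- square roots of power series -/
theorem exists_sqrt {Ω : Type} [Field Ω] [CharZero Ω] [IsAlgClosed Ω] (G : PowerSeries Ω)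
    (hG : PowerSeries.constantCoeff G ≠ 0) : ∃ H : PowerSeries Ω, H ^ 2 = G := by
  obtain ⟨r, hr⟩ := IsAlgClosed.exists_pow_nat_eq (PowerSeries.constantCoeff G) (n := 2) two_pos
  have hr0 : r ≠ 0 := by
    rintro rfl
    apply hG
    rw [← hr]
    ring
  have hH : HenselianRing (PowerSeries Ω) (Ideal.span {(PowerSeries.X : PowerSeries Ω)}) :=
    inferInstance
  obtain ⟨H, hH1, -⟩ := hH.is_henselian (Polynomial.X ^ 2 - Polynomial.C G)
    (Polynomial.monic_X_pow_sub_C G two_ne_zero) (PowerSeries.C r) (by
      rw [Ideal.mem_span_singleton, PowerSeries.X_dvd_iff]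
      simp [← hr]) (by
      refine IsUnit.map _ ?_
      rw [PowerSeries.isUnit_iff_constantCoeff, isUnit_iff_ne_zero]
      simp [hr0])
  refine ⟨H, ?_⟩
  rw [Polynomial.IsRoot.def] at hH1
  simpa [sub_eq_zero] using hH1

end Pool.Agent.Q6.FD
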