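import Pool.Agent.Q6.FD.Conic

/-! Double covers of the variety of flags branched along forms of bidegree (2, 2). -/

set_option autoImplicit false
set_option maxHeartbeats 400000

namespace Pool.Agent.Q6.FD

open MvPolynomial Pool.Agent.TH178.HI

section

variable {k R : Type} [Field k] [CommRing R] [Algebra k R]

/-- the polarised form with the coefficients `c` -/
noncomputable def form4 (c : Fin 3 → Fin 3 → Fin 3 → Fin 3 → k) (x x' y y' : Fin 3 → R) : R :=
  ∑ i, ∑ j, ∑ l, ∑ m, algebraMap k R (c i j l m) * x i * x' j * y l * y' m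

variable (c : Fin 3 → Fin 3 → Fin 3 → Fin 3 → k)

theorem form4_map {S : Type} [CommRing S] [Algebra k S] (φ : R →ₐ[k] S) (x x' y y' : Fin 3 → R) :
    φ (form4 c x x' y y') = form4 c (fun i => φ (x i)) (fun i => φ (x' i)) (fun i => φ (y i))
      (fun i => φ (y' i)) := by
  simp only [form4, map_sum, map_mul, AlgHom.commutes]

theorem form4_right (t : R) (x y z : Fin 3 → R) :
    form4 c x x (fun i => y i + t * z i) (fun i => y i + t * z i) =
      form4 c x x z z * t ^ 2 + (form4 c x x y z + form4 c x x z y) * t + form4 c x x y y := by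
  simp only [form4, Finset.sum_mul, ← Finset.sum_add_distrib]
  refine Finset.sum_congr rfl fun i _ => Finset.sum_congr rfl fun j _ =>
    Finset.sum_congr rfl fun l _ => Finset.sum_congr rfl fun m _ => ?_
  ring

theorem form4_left (t : R) (x y z : Fin 3 → R) :
    form4 c (fun i => y i + t * z i) (fun i => y i + t * z i) x x =
      form4 c z z x x * t ^ 2 + (form4 c y z x x + form4 c z y x x) * t + form4 c y y x x := by
  simp only [form4, Finset.sum_mul, ← Finset.sum_add_distrib]
  refine Finset.sum_congr rfl fun i _ => Finset.sum_congr rfl fun j _ =>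
    Finset.sum_congr rfl fun l _ => Finset.sum_congr rfl fun m _ => ?_
  ring

/-- the form in the affine coordinates `(s, p, q)` of the flags
`x = (1, p, q)`, `y = (q - p s, s, -1)` -/
noncomputable def branchF : MvPolynomial (Fin 3) k :=
  form4 c ![1, X 1, X 2] ![1, X 1, X 2] ![X 2 - X 1 * X 0, X 0, -1] ![X 2 - X 1 * X 0, X 0, -1]

end

section

variable {k K : Type} [Field k] [CharZero k] [Field K] [Algebra k K]

/-- the change of the coordinates -/
noncomputable def th : MvPolynomial (Fin 3) k →ₐ[k] MvPolynomial (Fin 3) k :=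
  aeval ![X 1, X 0, X 2 + X 0 * X 1]

/-- the inverse change of the coordinates -/
noncomputable def th' : MvPolynomial (Fin 3) k →ₐ[k] MvPolynomial (Fin 3) k :=
  aeval ![X 1, X 0, X 2 - X 1 * X 0]

omit [CharZero k] in
theorem th_th' (f : MvPolynomial (Fin 3) k) : th (th' f) = f := by
  have e : (th : MvPolynomial (Fin 3) k →ₐ[k] MvPolynomial (Fin 3) k).comp th' = AlgHom.id _ _ := by
    apply MvPolynomial.algHom_ext
    intro j
    fin_cases j <;> simp [th, th']
  exact DFunLike.congr_fun e f

omit [CharZero k] in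
theorem th'_th (f : MvPolynomial (Fin 3) k) : th' (th f) = f := by
  have e : (th' : MvPolynomial (Fin 3) k →ₐ[k] MvPolynomial (Fin 3) k).comp th = AlgHom.id _ _ := by
    apply MvPolynomial.algHom_ext
    intro j
    fin_cases j <;> simp [th, th']
  exact DFunLike.congr_fun e f

omit [CharZero k] in
theorem th'_rename (h : MvPolynomial (Fin 2) k) : th' (rename Fin.succ h) = lineFn h := by
  have e : (th' : MvPolynomial (Fin 3) k →ₐ[k] MvPolynomial (Fin 3) k).comp (rename Fin.succ) =
      lineFn := by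
    apply MvPolynomial.algHom_ext
    intro j
    fin_cases j <;> simp [th', lineFn]
  exact DFunLike.congr_fun e h

/-- The two conic fibrations, for a polynomial which is at most quadratic along both. -/
theorem fields_gen {s p q w : K} (hx : AlgebraicIndependent k ![s, p, q])
    {G : MvPolynomial (Fin 3) k} {A B C₀ A' B' C₀' : MvPolynomial (Fin 2) k}
    (hG1 : G = rename Fin.succ A * X 0 ^ 2 + rename Fin.succ B * X 0 + rename Fin.succ C₀)
    (hG2 : th G = rename Fin.succ A' * X 0 ^ 2 + rename Fin.succ B' * X 0 + rename Fin.succ C₀')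
    (hsq : Squarefree G) (h1 : ∀ h : MvPolynomial (Fin 2) k, rename Fin.succ h ∣ G →
      ∃ a : k, h = C a) (h1' : ∀ a : k, G ≠ C a)
    (h2 : ∀ h : MvPolynomial (Fin 2) k, lineFn h ≠ G)
    (hw : w ^ 2 = aeval ![s, p, q] G) (htop : IntermediateField.adjoin k {s, p, q, w} = ⊤) :
    ∃ L : Fin 2 → IntermediateField k K, (∀ i, IsConicOver (L i)) ∧
      (∀ a : K, (∀ i, IsAlgebraic (L i) a) → a ∈ Set.range (algebraMap k K)) ∧
      ∀ (M : Type) [Field M] [Algebra k M] [Algebra K M] [IsScalarTower k K M]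
        [FiniteDimensional K M], (∀ a : M, IsAlgebraic k a → a ∈ Set.range (algebraMap k M)) →
        (∀ i, IntermediateField.adjoin K {z : M | IsAlgebraic (L i) z} = ⊤) →
        Function.Surjective (algebraMap K M) := by
  classical
  have e1 : (![s, p, q] : Fin 3 → K) = Fin.cons s ![p, q] := rfl
  have hset : Set.range (![s, p, q] : Fin 3 → K) ∪ {w} = {s, p, q, w} := by
    rw [Matrix.range_cons, Matrix.range_cons, Matrix.range_cons, Matrix.range_empty,
      Set.union_empty]
    ext z
    simp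
    tauto
  have hC1 : IsConicOver (IntermediateField.adjoin k (Set.range ![p, q])) := by
    refine conic (s := s) (w := w) (u := ![p, q]) (G := G) (e1 ▸ hx) hG1 hsq ?_ (e1 ▸ hw) ?_
    · intro h hh
      obtain ⟨a, rfl⟩ := h1 h (by rw [hh])
      exact h1' a (by rw [← hh, rename_C])
    · rw [← e1, hset, htop]
  -- the second fibration
  have e2 : ∀ f : MvPolynomial (Fin 3) k,
      aeval (Fin.cons p ![s, q - p * s] : Fin 3 → K) f = aeval ![s, p, q] (th' f) := by
    intro f
    have e : (aeval (Fin.cons p ![s, q - p * s] : Fin 3 → K) : MvPolynomial (Fin 3) k →ₐ[k] K) =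
        (aeval ![s, p, q]).comp th' := by
      apply MvPolynomial.algHom_ext
      intro j
      fin_cases j <;> simp [th']
    exact DFunLike.congr_fun e f
  have hx' : AlgebraicIndependent k (Fin.cons p ![s, q - p * s] : Fin 3 → K) := by
    rw [algebraicIndependent_iff]
    intro f hf
    rw [e2] at hf
    have h3 := (algebraicIndependent_iff.1 hx) _ hf
    rw [← th_th' f, h3, map_zero]
  have hC2 : IsConicOver (IntermediateField.adjoin k (Set.range ![s, q - p * s])) := by
    refine conic (s := p) (w := w) (u := ![s, q - p * s]) (G := th G) hx' hG2 ?_ ?_ ?_ ?_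
    · intro a ha
      have h3 : th' a * th' a ∣ G := by
        rw [← map_mul]
        have h4 := map_dvd (th' : MvPolynomial (Fin 3) k →ₐ[k] MvPolynomial (Fin 3) k) ha
        rwa [th'_th] at h4
      have h4 := (hsq _ h3).map (th : MvPolynomial (Fin 3) k →ₐ[k] MvPolynomial (Fin 3) k)
      rwa [th_th'] at h4
    · intro h hh
      apply h2 h
      rw [← th'_rename, hh, th'_th]
    · rw [e2, th'_th, hw]
    · rw [← top_le_iff, ← htop, IntermediateField.adjoin_le_iff]
      have m0 : ∀ j : Fin 3, (Fin.cons p ![s, q - p * s] : Fin 3 → K) j ∈ IntermediateField.adjoin k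
          (Set.range (Fin.cons p ![s, q - p * s] : Fin 3 → K) ∪ {w}) := fun j =>
        IntermediateField.subset_adjoin _ _ (Or.inl ⟨j, rfl⟩)
      have mp : p ∈ IntermediateField.adjoin k
          (Set.range (Fin.cons p ![s, q - p * s] : Fin 3 → K) ∪ {w}) := m0 0
      have ms : s ∈ IntermediateField.adjoin k
          (Set.range (Fin.cons p ![s, q - p * s] : Fin 3 → K) ∪ {w}) := m0 1
      have mb : q - p * s ∈ IntermediateField.adjoin k
          (Set.range (Fin.cons p ![s, q - p * s] : Fin 3 → K) ∪ {w}) := m0 2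
      rintro z (rfl | rfl | rfl | rfl)
      · exact ms
      · exact mp
      · have h3 := add_mem mb (mul_mem mp ms)
        rwa [sub_add_cancel] at h3
      · exact IntermediateField.subset_adjoin _ _ (Or.inr rfl)
  have hset2 : Set.range (![s, q - p * s] : Fin 2 → K) = {s, q - p * s} := by
    rw [Matrix.range_cons, Matrix.range_cons, Matrix.range_empty, Set.union_empty]
    rfl
  rw [hset2] at hC2
  have hpl : Places ![p, q] (IntermediateField.adjoin k {s, q - p * s}) := by
    refine places hx hw htop ?_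
    intro π hπ hdvd
    obtain ⟨a, rfl⟩ := h1 π hdvd
    by_cases ha : a = 0
    · apply hπ.ne_zero
      rw [ha, map_zero]
    · exact hπ.not_isUnit ((isUnit_iff_ne_zero.2 ha).map C)
  have hpq : AlgebraicIndependent k ![p, q] := by
    have h := hx.comp (Fin.succ : Fin 2 → Fin 3) (Fin.succ_injective 2)
    have e : (![s, p, q] : Fin 3 → K) ∘ (Fin.succ : Fin 2 → Fin 3) = ![p, q] := by
      funext j
      fin_cases j <;> rfl
    rwa [e] at h
  refine ⟨![IntermediateField.adjoin k (Set.range ![p, q]),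
    IntermediateField.adjoin k {s, q - p * s}], ?_, ?_, ?_⟩
  · intro i
    fin_cases i
    · exact hC1
    · exact hC2
  · intro a ha
    exact no_invariants hpq hC1 hC2 hpl a (ha 0) (ha 1)
  · intro M _ _ _ _ _ hM1 hM2
    exact no_covers hpq hC1 hpl M hM1 (hM2 0) (hM2 1)

omit [CharZero k] in
theorem branch_dec1 (c : Fin 3 → Fin 3 → Fin 3 → Fin 3 → k) :
    ∃ A B C₀ : MvPolynomial (Fin 2) k,
      branchF c = rename Fin.succ A * X 0 ^ 2 + rename Fin.succ B * X 0 + rename Fin.succ C₀ := by
  have hx : (fun i => rename Fin.succ ((![1, X 0, X 1] : Fin 3 → MvPolynomial (Fin 2) k) i)) =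
      (![1, X 1, X 2] : Fin 3 → MvPolynomial (Fin 3) k) := by
    funext i
    fin_cases i <;> simp
  have hy : (fun i => rename Fin.succ ((![X 1, 0, -1] : Fin 3 → MvPolynomial (Fin 2) k) i)) =
      (![X 2, 0, -1] : Fin 3 → MvPolynomial (Fin 3) k) := by
    funext i
    fin_cases i <;> simp
  have hz : (fun i => rename Fin.succ ((![-X 0, 1, 0] : Fin 3 → MvPolynomial (Fin 2) k) i)) =
      (![-X 1, 1, 0] : Fin 3 → MvPolynomial (Fin 3) k) := by
    funext i
    fin_cases i <;> simp
  have hyz : (![X 2 - X 1 * X 0, X 0, -1] : Fin 3 → MvPolynomial (Fin 3) k) =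
      fun i => (![X 2, 0, -1] : Fin 3 → MvPolynomial (Fin 3) k) i +
        X 0 * (![-X 1, 1, 0] : Fin 3 → MvPolynomial (Fin 3) k) i := by
    funext i
    fin_cases i
    · simp
      ring
    · simp
    · simp
  refine ⟨form4 c ![1, X 0, X 1] ![1, X 0, X 1] ![-X 0, 1, 0] ![-X 0, 1, 0],
    form4 c ![1, X 0, X 1] ![1, X 0, X 1] ![X 1, 0, -1] ![-X 0, 1, 0] +
      form4 c ![1, X 0, X 1] ![1, X 0, X 1] ![-X 0, 1, 0] ![X 1, 0, -1],
    form4 c ![1, X 0, X 1] ![1, X 0, X 1] ![X 1, 0, -1] ![X 1, 0, -1], ?_⟩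
  rw [map_add, form4_map, form4_map, form4_map, form4_map, hx, hy, hz, branchF, hyz,
    form4_right]

omit [CharZero k] in
theorem branch_dec2 (c : Fin 3 → Fin 3 → Fin 3 → Fin 3 → k) :
    ∃ A B C₀ : MvPolynomial (Fin 2) k,
      th (branchF c) = rename Fin.succ A * X 0 ^ 2 + rename Fin.succ B * X 0 +
        rename Fin.succ C₀ := by
  have hx : (fun i => rename Fin.succ ((![X 1, X 0, -1] : Fin 3 → MvPolynomial (Fin 2) k) i)) =
      (![X 2, X 1, -1] : Fin 3 → MvPolynomial (Fin 3) k) := by
    funext i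
    fin_cases i <;> simp
  have hy : (fun i => rename Fin.succ ((![1, 0, X 1] : Fin 3 → MvPolynomial (Fin 2) k) i)) =
      (![1, 0, X 2] : Fin 3 → MvPolynomial (Fin 3) k) := by
    funext i
    fin_cases i <;> simp
  have hz : (fun i => rename Fin.succ ((![0, 1, X 0] : Fin 3 → MvPolynomial (Fin 2) k) i)) =
      (![0, 1, X 1] : Fin 3 → MvPolynomial (Fin 3) k) := by
    funext i
    fin_cases i <;> simp
  have hyz : (fun i => th ((![1, X 1, X 2] : Fin 3 → MvPolynomial (Fin 3) k) i)) =
      fun i => (![1, 0, X 2] : Fin 3 → MvPolynomial (Fin 3) k) i +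
        X 0 * (![0, 1, X 1] : Fin 3 → MvPolynomial (Fin 3) k) i := by
    funext i
    fin_cases i <;> simp [th]
  have hx' : (fun i => th ((![X 2 - X 1 * X 0, X 0, -1] : Fin 3 → MvPolynomial (Fin 3) k) i)) =
      (![X 2, X 1, -1] : Fin 3 → MvPolynomial (Fin 3) k) := by
    funext i
    fin_cases i <;> simp [th]
  refine ⟨form4 c ![0, 1, X 0] ![0, 1, X 0] ![X 1, X 0, -1] ![X 1, X 0, -1],
    form4 c ![1, 0, X 1] ![0, 1, X 0] ![X 1, X 0, -1] ![X 1, X 0, -1] +
      form4 c ![0, 1, X 0] ![1, 0, X 1] ![X 1, X 0, -1] ![X 1, X 0, -1],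
    form4 c ![1, 0, X 1] ![1, 0, X 1] ![X 1, X 0, -1] ![X 1, X 0, -1], ?_⟩
  rw [map_add, form4_map, form4_map, form4_map, form4_map, hx, hy, hz, branchF, form4_map, hyz,
    hx', form4_left]

omit [CharZero k] in
/-- the generators of the function field -/
theorem affine_gen (c : Fin 3 → Fin 3 → Fin 3 → Fin 3 → k) {x y : Fin 3 → K} {w : K}
    (hx0 : x 0 = 1) (hy2 : y 2 = -1) (hxy : ∑ i, x i * y i = 0) (hw : w ^ 2 = form4 c x x y y)
    (htop : IntermediateField.adjoin k (Set.range x ∪ Set.range y ∪ {w}) = ⊤) :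
    w ^ 2 = aeval ![y 1, x 1, x 2] (branchF c) ∧
      IntermediateField.adjoin k {y 1, x 1, x 2, w} = ⊤ := by
  have hy0 : y 0 = x 2 - x 1 * y 1 := by
    rw [Fin.sum_univ_three, hx0, hy2] at hxy
    linear_combination hxy
  have hxf : (fun i => aeval ![y 1, x 1, x 2] ((![1, X 1, X 2] : Fin 3 → MvPolynomial (Fin 3) k) i)) =
      x := by
    funext i
    fin_cases i <;> simp [hx0]
  have hyf : (fun i => aeval ![y 1, x 1, x 2]
      ((![X 2 - X 1 * X 0, X 0, -1] : Fin 3 → MvPolynomial (Fin 3) k) i)) = y := by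
    funext i
    fin_cases i <;> simp [hy0, hy2]
  refine ⟨?_, ?_⟩
  · rw [hw, branchF, form4_map, hxf, hyf]
  · rw [← top_le_iff, ← htop, IntermediateField.adjoin_le_iff]
    have ms : y 1 ∈ IntermediateField.adjoin k {y 1, x 1, x 2, w} :=
      IntermediateField.subset_adjoin _ _ (by simp)
    have mp : x 1 ∈ IntermediateField.adjoin k {y 1, x 1, x 2, w} :=
      IntermediateField.subset_adjoin _ _ (by simp)
    have mq : x 2 ∈ IntermediateField.adjoin k {y 1, x 1, x 2, w} :=
      IntermediateField.subset_adjoin _ _ (by simp)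
    rintro z ((⟨j, rfl⟩ | ⟨j, rfl⟩) | hz)
    · fin_cases j
      · change x 0 ∈ _
        rw [hx0]
        exact one_mem _
      · exact mp
      · exact mq
    · fin_cases j
      · change y 0 ∈ _
        rw [hy0]
        exact sub_mem mq (mul_mem mp ms)
      · exact ms
      · change y 2 ∈ _
        rw [hy2]
        exact neg_mem (one_mem _)
    · rw [Set.mem_singleton_iff.1 hz]
      exact IntermediateField.subset_adjoin _ _ (by simp)

/-- The conic fibrations of the double covers of the variety of flags. -/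
theorem fields (c : Fin 3 → Fin 3 → Fin 3 → Fin 3 → k) {x y : Fin 3 → K} {w : K} (hx0 : x 0 = 1)
    (hy2 : y 2 = -1) (hxy : ∑ i, x i * y i = 0)
    (hind : AlgebraicIndependent k ![y 1, x 1, x 2]) (hw : w ^ 2 = form4 c x x y y)
    (htop : IntermediateField.adjoin k (Set.range x ∪ Set.range y ∪ {w}) = ⊤)
    (hsq : Squarefree (branchF c))
    (h1 : ∀ h : MvPolynomial (Fin 2) k, aeval ![X 1, X 2] h ∣ branchF c → ∃ a : k, h = C a)
    (h2 : ∀ h : MvPolynomial (Fin 2) k, aeval ![X 0, X 2 - X 1 * X 0] h ≠ branchF c) :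
    ∃ L : Fin 2 → IntermediateField k K, (∀ i, IsConicOver (L i)) ∧
      (∀ a : K, (∀ i, IsAlgebraic (L i) a) → a ∈ Set.range (algebraMap k K)) ∧
      ∀ (M : Type) [Field M] [Algebra k M] [Algebra K M] [IsScalarTower k K M]
        [FiniteDimensional K M], (∀ a : M, IsAlgebraic k a → a ∈ Set.range (algebraMap k M)) →
        (∀ i, IntermediateField.adjoin K {z : M | IsAlgebraic (L i) z} = ⊤) →
        Function.Surjective (algebraMap K M) := by
  obtain ⟨A, B, C₀, hG1⟩ := branch_dec1 c
  obtain ⟨A', B', C₀', hG2⟩ := branch_dec2 c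
  obtain ⟨hwG, htop'⟩ := affine_gen c hx0 hy2 hxy hw htop
  refine fields_gen (s := y 1) (p := x 1) (q := x 2) (w := w) (G := branchF c) hind hG1 hG2 hsq
    ?_ ?_ h2 hwG htop'
  · intro h hh
    refine h1 h ?_
    have e : (aeval ![X 1, X 2] : MvPolynomial (Fin 2) k →ₐ[k] MvPolynomial (Fin 3) k) =
        rename Fin.succ := by
      apply MvPolynomial.algHom_ext
      intro j
      fin_cases j <;> simp
    rwa [e]
  · intro a ha
    apply h2 (C a)
    rw [ha, aeval_C]
    rfl

end

end Pool.Agent.Q6.FD
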