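import Pool.Agent.Q6.FD.Form

/-! The moves along the two conic fibrations, over a topological field. -/

set_option autoImplicit false
set_option maxHeartbeats 400000

namespace Pool.Agent.Q6.FD

open MvPolynomial Filter Topology

section ring

variable {R : Type} [CommRing R] [Algebra ℚ R]

/-- the value of a polynomial -/
noncomputable def ev (G : MvPolynomial (Fin 3) ℚ) (z : R × R × R) : R :=
  aeval ![z.1, z.2.1, z.2.2] G

/-- the moves -/
def mv (i : Bool) (z : R × R × R) (t : R) : R × R × R :=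
  match i with
  | true => (z.1 + t, z.2.1, z.2.2)
  | false => (z.1, z.2.1 + t, z.2.2 + t * z.1)

theorem ev_mul (f g : MvPolynomial (Fin 3) ℚ) (z : R × R × R) : ev (f * g) z = ev f z * ev g z := by
  simp [ev]

theorem ev_add (f g : MvPolynomial (Fin 3) ℚ) (z : R × R × R) : ev (f + g) z = ev f z + ev g z := by
  simp [ev]

theorem ev_pow (f : MvPolynomial (Fin 3) ℚ) (n : ℕ) (z : R × R × R) : ev (f ^ n) z = ev f z ^ n := by
  simp [ev]

theorem ev_ren (A : MvPolynomial (Fin 2) ℚ) (z : R × R × R) :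
    ev (rename Fin.succ A) z = aeval ![z.2.1, z.2.2] A := by
  rw [ev, aeval_rename]
  congr 1

theorem ev_line (A : MvPolynomial (Fin 2) ℚ) (z : R × R × R) :
    ev (lineFn A) z = aeval ![z.1, z.2.2 - z.2.1 * z.1] A := by
  have e : (aeval ![z.1, z.2.1, z.2.2] : MvPolynomial (Fin 3) ℚ →ₐ[ℚ] R).comp lineFn =
      aeval ![z.1, z.2.2 - z.2.1 * z.1] := by
    apply MvPolynomial.algHom_ext
    intro j
    fin_cases j <;> simp [lineFn]
  exact DFunLike.congr_fun e A

end ring

/-- the coefficients of the conic in the direction `i` -/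
structure DirData (G : MvPolynomial (Fin 3) ℚ) (i : Bool) where
  /-- the quadratic coefficient -/
  α : MvPolynomial (Fin 3) ℚ
  /-- the linear coefficient -/
  β : MvPolynomial (Fin 3) ℚ
  h : ∀ (R : Type) [CommRing R] [Algebra ℚ R] (z : R × R × R) (t : R),
    ev G (mv i z t) = ev G z + ev β z * t + ev α z * t ^ 2
  hβ : match i with
    | true => β = pderiv 0 G
    | false => β = pderiv 1 G + X 0 * pderiv 2 G

theorem pderiv_ren (A : MvPolynomial (Fin 2) ℚ) :
    pderiv (0 : Fin 3) (rename Fin.succ A : MvPolynomial (Fin 3) ℚ) = 0 := by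
  induction A using MvPolynomial.induction_on with
  | C a => simp
  | add p q hp hq => rw [map_add, map_add, hp, hq, add_zero]
  | mul_X p i hp =>
    rw [map_mul, rename_X, Derivation.leibniz, hp, smul_zero, pderiv_X_of_ne, smul_zero, add_zero]
    exact Fin.succ_ne_zero i

theorem der_line (A : MvPolynomial (Fin 2) ℚ) :
    pderiv (1 : Fin 3) (lineFn A : MvPolynomial (Fin 3) ℚ) +
      X 0 * pderiv (2 : Fin 3) (lineFn A : MvPolynomial (Fin 3) ℚ) = 0 := by
  induction A using MvPolynomial.induction_on with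
  | C a => simp [lineFn]
  | add p q hp hq =>
    rw [map_add, map_add, map_add]
    linear_combination hp + hq
  | mul_X p i hp =>
    rw [map_mul, Derivation.leibniz, Derivation.leibniz]
    simp only [smul_eq_mul]
    have hX : pderiv (1 : Fin 3) (lineFn (X i) : MvPolynomial (Fin 3) ℚ) +
        X 0 * pderiv (2 : Fin 3) (lineFn (X i) : MvPolynomial (Fin 3) ℚ) = 0 := by
      fin_cases i
      · simp [lineFn, pderiv_X]
      · simp [lineFn, pderiv_X]
    linear_combination lineFn (X i) * hp + lineFn p * hX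

theorem dirData {G : MvPolynomial (Fin 3) ℚ} {A B C₀ A' B' C₀' : MvPolynomial (Fin 2) ℚ}
    (hG1 : G = rename Fin.succ A * X 0 ^ 2 + rename Fin.succ B * X 0 + rename Fin.succ C₀)
    (hG2 : th G = rename Fin.succ A' * X 0 ^ 2 + rename Fin.succ B' * X 0 + rename Fin.succ C₀')
    (i : Bool) : Nonempty (DirData G i) := by
  have hG2' : G = lineFn A' * X 1 ^ 2 + lineFn B' * X 1 + lineFn C₀' := by
    rw [← th'_th G, hG2]
    simp only [map_add, map_mul, map_pow, th'_rename]
    simp [th']
  cases i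
  · refine ⟨lineFn A', C 2 * lineFn A' * X 1 + lineFn B', ?_, ?_⟩
    · intro R _ _ z t
      have e : ∀ z : R × R × R, ev G z = aeval ![z.1, z.2.2 - z.2.1 * z.1] A' * z.2.1 ^ 2 +
          aeval ![z.1, z.2.2 - z.2.1 * z.1] B' * z.2.1 +
          aeval ![z.1, z.2.2 - z.2.1 * z.1] C₀' := by
        intro z
        rw [hG2', ev_add, ev_add, ev_mul, ev_mul, ev_pow, ev_line, ev_line, ev_line]
        simp [ev]
      rw [e, e, ev_add, ev_mul, ev_mul, ev_line, ev_line]
      have h2 : ev (C 2) z = (2 : R) := by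
        rw [ev, aeval_C]
        exact map_ofNat _ 2
      have h3 : ev (X 1) z = z.2.1 := by simp [ev]
      rw [h2, h3]
      simp only [mv]
      rw [show z.2.2 + t * z.1 - (z.2.1 + t) * z.1 = z.2.2 - z.2.1 * z.1 by ring]
      ring
    · change C 2 * lineFn A' * X 1 + lineFn B' = pderiv 1 G + X 0 * pderiv 2 G
      have h1 := der_line A'
      have h2 := der_line B'
      have h3 := der_line C₀'
      have hC : (C 2 : MvPolynomial (Fin 3) ℚ) = 2 := rfl
      rw [hG2', hC]
      simp only [map_add, Derivation.leibniz, Derivation.leibniz_pow, smul_eq_mul, nsmul_eq_mul]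
      simp only [pderiv_X]
      simp
      linear_combination -(X 1 ^ 2) * h1 - X 1 * h2 - h3
  · refine ⟨rename Fin.succ A, C 2 * rename Fin.succ A * X 0 + rename Fin.succ B, ?_, ?_⟩
    · intro R _ _ z t
      have e : ∀ z : R × R × R, ev G z = aeval ![z.2.1, z.2.2] A * z.1 ^ 2 +
          aeval ![z.2.1, z.2.2] B * z.1 + aeval ![z.2.1, z.2.2] C₀ := by
        intro z
        rw [hG1, ev_add, ev_add, ev_mul, ev_mul, ev_pow, ev_ren, ev_ren, ev_ren]
        simp [ev]
      rw [e, e, ev_add, ev_mul, ev_mul, ev_ren, ev_ren]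
      have h2 : ev (C 2) z = (2 : R) := by
        rw [ev, aeval_C]
        exact map_ofNat _ 2
      have h3 : ev (X 0) z = z.1 := by simp [ev]
      rw [h2, h3]
      simp only [mv]
      ring
    · change C 2 * rename Fin.succ A * X 0 + rename Fin.succ B = pderiv 0 G
      have hC : (C 2 : MvPolynomial (Fin 3) ℚ) = 2 := rfl
      rw [hG1, hC]
      simp only [map_add, Derivation.leibniz, Derivation.leibniz_pow, smul_eq_mul, nsmul_eq_mul,
        pderiv_ren]
      simp only [pderiv_X]
      simp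
      ring

section map

variable {F : Type} [Field F] [Algebra ℚ F] {G : MvPolynomial (Fin 3) ℚ} {i : Bool}

/-- the change of `-w` -/
noncomputable def cc (d : DirData G i) (x : F × F × F × F) (n : F) : F :=
  (ev d.β x.2 * n - 2 * x.1) / (1 - ev d.α x.2 * n ^ 2)

/-- the second intersection point of the conic with a line -/
noncomputable def Phi (d : DirData G i) (x : F × F × F × F) (n : F) : F × F × F × F :=
  (-(x.1 + cc d x n), mv i x.2 (n * cc d x n))

theorem Phi_mem (d : DirData G i) {x : F × F × F × F} {n : F}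
    (hx : x.1 ^ 2 = ev G x.2) (hD : 1 - ev d.α x.2 * n ^ 2 ≠ 0) :
    (Phi d x n).1 ^ 2 = ev G (Phi d x n).2 := by
  have hc : cc d x n * (1 - ev d.α x.2 * n ^ 2) = ev d.β x.2 * n - 2 * x.1 :=
    div_mul_cancel₀ _ hD
  change (-(x.1 + cc d x n)) ^ 2 = ev G (mv i x.2 (n * cc d x n))
  rw [d.h, ← hx]
  linear_combination cc d x n * hc

theorem Phi_eq (d : DirData G i) {x : F × F × F × F} {w t : F}
    (hx : x.1 ^ 2 = ev G x.2) (hw : w ^ 2 = ev G (mv i x.2 t)) (h1 : x.1 + w ≠ 0)
    (h2 : (x.1 + w) ^ 2 - ev d.α x.2 * t ^ 2 ≠ 0) :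
    1 - ev d.α x.2 * (-t / (x.1 + w)) ^ 2 ≠ 0 ∧ Phi d x (-t / (x.1 + w)) = (w, mv i x.2 t) := by
  have hD : 1 - ev d.α x.2 * (-t / (x.1 + w)) ^ 2 =
      ((x.1 + w) ^ 2 - ev d.α x.2 * t ^ 2) / (x.1 + w) ^ 2 := by
    field_simp
  have hD0 : 1 - ev d.α x.2 * (-t / (x.1 + w)) ^ 2 ≠ 0 := by
    rw [hD]
    exact div_ne_zero h2 (pow_ne_zero 2 h1)
  refine ⟨hD0, ?_⟩
  rw [d.h, ← hx] at hw
  have hc : cc d x (-t / (x.1 + w)) = -(x.1 + w) := by
    rw [cc, div_eq_iff hD0, hD]
    field_simp
    linear_combination hw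
  have e1 : -(x.1 + -(x.1 + w)) = w := by ring
  have e2 : -t / (x.1 + w) * -(x.1 + w) = t := by field_simp
  change (-(x.1 + cc d x (-t / (x.1 + w))), mv i x.2 (-t / (x.1 + w) * cc d x (-t / (x.1 + w)))) = _
  rw [hc, e1, e2]

end map

end Pool.Agent.Q6.FD
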