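import Pool.Agent.Q6.FD.Crit
import Pool.Agent.Q6.FD.Data

/-! The places over the generic points of the prime divisors of the plane of the points `(p, q)`,
for the double covers of the variety of the flags (point, line) in the plane. -/

set_option autoImplicit false
set_option maxHeartbeats 400000

namespace Pool.Agent.Q6.FD

open MvPolynomial Pool.Agent.Q35.HB Pool.Agent.Helper165.P1 Pool.Agent.Q175.HB

section

variable {k K : Type} [Field k] [CharZero k] [Field K] [Algebra k K]

omit [CharZero k] in
theorem prime_succ {π : MvPolynomial (Fin 2) k} (hπ : Irreducible π) :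
    Prime (rename Fin.succ π : MvPolynomial (Fin 3) k) := by
  rw [← MulEquiv.prime_iff (finSuccEquiv k 2).toRingEquiv.toMulEquiv]
  change Prime (finSuccEquiv k 2 (rename Fin.succ π))
  rw [finSucc_rename]
  exact Polynomial.prime_C_iff.2 hπ.prime

/-- a system of power series along a line through a general point of a divisor -/
theorem subst_injective {Ω : Type} [Field Ω] [Algebra k Ω] {π : MvPolynomial (Fin 2) k}
    (hπ : Irreducible π) {a : Fin 2 → k} (ha : ∑ t, C (a t) * pderiv t π ≠ 0) {z : Fin 2 → Ω}
    {t : Ω} (hz : ∀ f : MvPolynomial (Fin 2) k, aeval z f = 0 ↔ π ∣ f)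
    (ht : ∀ g : MvPolynomial (Fin 3) k, aeval (Fin.cons t z : Fin 3 → Ω) g = 0 ↔
        rename Fin.succ π ∣ g) {y : Fin 3 → PowerSeries Ω}
    (hy0 : y 0 = PowerSeries.C t)
    (hy1 : ∀ j : Fin 2, y j.succ = PowerSeries.C (z j) +
      PowerSeries.C (algebraMap k Ω (a j)) * PowerSeries.X)
    (f : MvPolynomial (Fin 3) k) (hf : sb (k := k) y f = 0) : f = 0 := by
  classical
  have hy : ∀ j, PowerSeries.constantCoeff (y j) = (Fin.cons t z : Fin 3 → Ω) j := by
    intro j
    refine Fin.cases ?_ (fun j => ?_) j
    · rw [hy0]; simp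
    · rw [hy1]; simp
  have hc0 : PowerSeries.coeff 1 (y 0) = 0 := by
    rw [hy0, PowerSeries.coeff_C]
    simp
  have hc1 : ∀ j : Fin 2, PowerSeries.coeff 1 (y j.succ) = algebraMap k Ω (a j) := by
    intro j
    rw [hy1, map_add, PowerSeries.coeff_C, PowerSeries.coeff_C_mul]
    simp
  have hψπ : sb (k := k) y (rename Fin.succ π) ≠ 0 := by
    intro h
    have h1 := sb_coeff1 hy (rename Fin.succ π : MvPolynomial (Fin 3) k)
    rw [h, map_zero, Fin.sum_univ_succ, hc0, zero_mul, zero_add] at h1
    have h2 : ∀ j : Fin 2, aeval (Fin.cons t z : Fin 3 → Ω)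
        (pderiv j.succ (rename Fin.succ π : MvPolynomial (Fin 3) k)) = aeval z (pderiv j π) := by
      intro j
      rw [pderiv_rename (Fin.succ_injective 2), aeval_rename]
      rfl
    have h3 : aeval z (∑ t, C (a t) * pderiv t π) = 0 := by
      rw [map_sum, h1]
      refine Finset.sum_congr rfl fun j _ => ?_
      rw [map_mul, aeval_C, hc1, h2]
    exact not_dvd_der π a ha ((hz _).1 h3)
  by_contra hf0
  obtain ⟨m, g, hg, hfm⟩ := WfDvdMonoid.max_power_factor' hf0 (prime_succ hπ).not_isUnit
  rw [hfm, map_mul, map_pow] at hf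
  rcases mul_eq_zero.1 hf with h1 | h1
  · exact absurd h1 (pow_ne_zero m hψπ)
  · apply hg
    rw [← ht, ← sb_const hy, h1, map_zero]

theorem places {s p q w : K} (hx : AlgebraicIndependent k ![s, p, q])
    {G : MvPolynomial (Fin 3) k} (hw : w ^ 2 = aeval ![s, p, q] G)
    (htop : IntermediateField.adjoin k {s, p, q, w} = ⊤)
    (hG : ∀ π : MvPolynomial (Fin 2) k, Irreducible π → ¬ rename Fin.succ π ∣ G) :
    Places ![p, q] (IntermediateField.adjoin k {s, q - p * s}) := by
  classical
  intro π hπ a ha
  obtain ⟨Ω, iF, iC, iA, iG, z, t, hz, ht⟩ := exists_generic hπ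
  refine ⟨Ω, iF, iC, iA, iG, z, ?_⟩
  let y : Fin 3 → PowerSeries Ω := Fin.cons (PowerSeries.C t)
    (fun j => PowerSeries.C (z j) + PowerSeries.C (algebraMap k Ω (a j)) * PowerSeries.X)
  have hy0 : y 0 = PowerSeries.C t := rfl
  have hy1 : ∀ j : Fin 2, y j.succ = PowerSeries.C (z j) +
      PowerSeries.C (algebraMap k Ω (a j)) * PowerSeries.X := fun j => rfl
  have hy : ∀ j, PowerSeries.constantCoeff (y j) = (Fin.cons t z : Fin 3 → Ω) j := by
    intro j
    refine Fin.cases ?_ (fun j => ?_) j
    · rw [hy0]; simp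
    · rw [hy1]; simp
  have hinj := subst_injective hπ ha hz ht hy0 hy1
  -- the embedding
  let A := MvPolynomial (Fin 3) k
  have hxi : ∀ f : A, aeval ![s, p, q] f = 0 → f = 0 := fun f hf =>
    (algebraicIndependent_iff.1 hx) f hf
  obtain ⟨σ, hσ⟩ : ∃ σ : K →+* Pui Ω, ∀ f : A, σ (aeval ![s, p, q] f) = ps Ω (sb y f) := by
    let _ : Algebra A K := ((aeval ![s, p, q] : A →ₐ[k] K) : A →+* K).toAlgebra
    let _ : Algebra A (Pui Ω) := ((ps Ω).comp (sb (k := k) y)).toAlgebra
    have hAK : ∀ f : A, algebraMap A K f = aeval ![s, p, q] f := fun f => rfl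
    have hAP : ∀ f : A, algebraMap A (Pui Ω) f = ps Ω (sb y f) := fun f => rfl
    have i1 : Function.Injective (algebraMap A K) := by
      rw [injective_iff_map_eq_zero]
      exact hxi
    have i2 : Function.Injective (algebraMap A (Pui Ω)) := by
      rw [injective_iff_map_eq_zero]
      intro f hf
      rw [hAP, ← map_zero (ps Ω)] at hf
      exact hinj f (Pool.Agent.Q35.HB.ps_injective Ω hf)
    have f1 : FaithfulSMul A K := (faithfulSMul_iff_algebraMap_injective A K).2 i1
    have f2 : FaithfulSMul A (Pui Ω) := (faithfulSMul_iff_algebraMap_injective A (Pui Ω)).2 i2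
    have halg : Algebra.IsAlgebraic A K := by
      refine ⟨fun u => ?_⟩
      have hu : u ∈ IntermediateField.adjoin k {s, p, q, w} := by rw [htop]; trivial
      induction hu using IntermediateField.adjoin_induction with
      | mem u hu =>
        have h0 : ∀ j : Fin 3, IsAlgebraic A ((![s, p, q] : Fin 3 → K) j) := by
          intro j
          have : (![s, p, q] : Fin 3 → K) j = algebraMap A K (X j) := by rw [hAK, aeval_X]
          rw [this]
          exact isAlgebraic_algebraMap _
        rcases hu with rfl | rfl | rfl | rfl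
        · exact h0 0
        · exact h0 1
        · exact h0 2
        · have h1 : IsAlgebraic A (u ^ 2) := by
            rw [hw, ← hAK]
            exact isAlgebraic_algebraMap _
          exact h1.of_pow two_pos
      | algebraMap c =>
        have : algebraMap k K c = algebraMap A K (C c) := by rw [hAK, aeval_C]
        rw [this]
        exact isAlgebraic_algebraMap _
      | add u v _ _ h1 h2 => exact h1.add h2
      | mul u v _ _ h1 h2 => exact h1.mul h2
      | inv u _ h1 => exact h1.inv
    let τ : K →ₐ[A] Pui Ω := IsAlgClosed.lift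
    exact ⟨τ.toRingHom, fun f => τ.commutes f⟩
  have hσk : ∀ c : k, σ (algebraMap k K c) = ps Ω (PowerSeries.C (algebraMap k Ω c)) := by
    intro c
    have h1 := hσ (C c)
    rwa [aeval_C, sb_C] at h1
  have hσx : ∀ j : Fin 3, σ ((![s, p, q] : Fin 3 → K) j) = ps Ω (y j) := by
    intro j
    have h1 := hσ (X j)
    rwa [aeval_X, sb_X] at h1
  refine ⟨σ, hz, hσk, ?_, ?_, ?_⟩
  · intro j
    have h1 := hσx j.succ
    rw [hy1] at h1
    rw [← h1]
    fin_cases j <;> rfl
  · -- all values are Laurent series
    have hG0 : PowerSeries.constantCoeff (sb (k := k) y G) ≠ 0 := by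
      rw [sb_const hy]
      intro h
      exact hG π hπ ((ht G).1 h)
    obtain ⟨H, hH⟩ := exists_sqrt (sb (k := k) y G) hG0
    have hw2 : σ w ^ 2 = (ps Ω H) ^ 2 := by
      rw [← map_pow, ← map_pow, hw, hσ, hH]
    have hwF : σ w ∈ Fr Ω := by
      rcases sq_eq_sq_iff_eq_or_eq_neg.1 hw2 with h | h
      · rw [h]; exact fr_ps H
      · rw [h, ← map_neg]; exact fr_ps (-H)
    intro r
    change σ r ∈ Fr Ω
    have hr : r ∈ IntermediateField.adjoin k {s, p, q, w} := by rw [htop]; trivial
    induction hr using IntermediateField.adjoin_induction with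
    | mem u hu =>
      rcases hu with rfl | rfl | rfl | rfl
      · have h5 : σ u = ps Ω (y 0) := hσx 0
        rw [h5]; exact fr_ps _
      · have h5 : σ u = ps Ω (y 1) := hσx 1
        rw [h5]; exact fr_ps _
      · have h5 : σ u = ps Ω (y 2) := hσx 2
        rw [h5]; exact fr_ps _
      · exact hwF
    | algebraMap c => rw [hσk]; exact fr_ps _
    | add u v _ _ h1 h2 => rw [map_add]; exact fr_add h1 h2
    | mul u v _ _ h1 h2 => rw [map_mul]; exact fr_mul h1 h2
    | inv u _ h1 => rw [map_inv₀]; exact fr_inv h1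
  · -- the place is trivial on the field of the functions of the line
    have hline : ∀ h : MvPolynomial (Fin 2) k,
        aeval ![s, q - p * s] h = aeval ![s, p, q] (lineFn h) := by
      intro h
      have e : (aeval ![s, q - p * s] : MvPolynomial (Fin 2) k →ₐ[k] K) =
          (aeval ![s, p, q]).comp lineFn := by
        apply MvPolynomial.algHom_ext
        intro j
        fin_cases j
        · simp [lineFn]
        · simp [lineFn]
      exact DFunLike.congr_fun e h
    have hunit : ∀ h : MvPolynomial (Fin 2) k, h ≠ 0 → IsUnit (sb (k := k) y (lineFn h)) := by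
      intro h hh
      rw [PowerSeries.isUnit_iff_constantCoeff, isUnit_iff_ne_zero, sb_const hy]
      intro h0
      exact not_dvd_lineFn hπ hh ((ht _).1 h0)
    have hrange : ∀ u : IntermediateField.adjoin k {s, q - p * s},
        ∃ v : PowerSeries Ω, σ (u : K) = ps Ω v := by
      rintro ⟨u, hu⟩
      have hset : ({s, q - p * s} : Set K) = Set.range (![s, q - p * s] : Fin 2 → K) := by
        rw [Matrix.range_cons, Matrix.range_cons, Matrix.range_empty, Set.union_empty]
        rfl
      rw [hset, IntermediateField.mem_adjoin_iff_div] at hu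
      obtain ⟨c, hc, d, hd, hcd⟩ := hu
      rw [Algebra.adjoin_range_eq_range_aeval] at hc hd
      obtain ⟨c, rfl⟩ := hc
      obtain ⟨d, rfl⟩ := hd
      by_cases hd0 : d = 0
      · refine ⟨0, ?_⟩
        change σ u = _
        rw [hcd, hd0]
        simp
      · obtain ⟨v, hv⟩ := hunit d hd0
        refine ⟨sb (k := k) y (lineFn c) * ((v⁻¹ : (PowerSeries Ω)ˣ) : PowerSeries Ω), ?_⟩
        change σ u = _
        have h1 : σ (aeval ![s, q - p * s] d) = ps Ω (v : PowerSeries Ω) := by
          rw [hline, hσ, ← hv]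
        have h2 : σ (aeval ![s, q - p * s] c) = ps Ω (sb (k := k) y (lineFn c)) := by
          rw [hline, hσ]
        have h3 : u * aeval ![s, q - p * s] d = aeval ![s, q - p * s] c := by
          rw [hcd]
          refine div_mul_cancel₀ _ ?_
          intro h0
          change (aeval ![s, q - p * s] : MvPolynomial (Fin 2) k →ₐ[k] K) d = 0 at h0
          have h4 := h1
          rw [h0, map_zero] at h4
          have h5 := v.isUnit.map (ps Ω)
          rw [← h4] at h5
          exact not_isUnit_zero h5
        have h4 := congrArg σ h3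
        rw [map_mul, h1, h2] at h4
        rw [map_mul, ← h4, mul_assoc, ← map_mul, Units.mul_inv, map_one, mul_one]
    choose ρ hρ using hrange
    refine ⟨{ toFun := ρ, map_one' := ?_, map_mul' := ?_, map_zero' := ?_, map_add' := ?_ },
      fun u => hρ u⟩
    · apply Pool.Agent.Q35.HB.ps_injective Ω
      rw [← hρ]; simp
    · intro u v
      apply Pool.Agent.Q35.HB.ps_injective Ω
      rw [← hρ, map_mul, ← hρ, ← hρ]
      simp
    · apply Pool.Agent.Q35.HB.ps_injective Ω
      rw [← hρ]; simp
    · intro u v
      apply Pool.Agent.Q35.HB.ps_injective Ω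
      rw [← hρ, map_add, ← hρ, ← hρ]
      simp

end

end Pool.Agent.Q6.FD
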