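import Pool.Agent.Q6.FD.Mv

/-! The real closure of the set of the rational points of the double covers of the variety of flags
is open outside the branch divisor. -/

set_option autoImplicit false
set_option maxHeartbeats 400000

namespace Pool.Agent.Q6.FD

open MvPolynomial Filter Topology

variable {G : MvPolynomial (Fin 3) ℚ}

theorem ev_cont (f : MvPolynomial (Fin 3) ℚ) : Continuous fun z : ℝ × ℝ × ℝ => ev f z := by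
  have h1 : Continuous fun z : ℝ × ℝ × ℝ => (![z.1, z.2.1, z.2.2] : Fin 3 → ℝ) := by
    refine continuous_pi fun j => ?_
    fin_cases j
    · exact continuous_fst
    · exact continuous_fst.comp continuous_snd
    · exact continuous_snd.comp continuous_snd
  have h2 : ∀ z : ℝ × ℝ × ℝ, ev f z = eval ![z.1, z.2.1, z.2.2] (map (algebraMap ℚ ℝ) f) := by
    intro z
    rw [ev, eval_map]
    rfl
  simp_rw [h2]
  exact (MvPolynomial.continuous_eval _).comp h1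

theorem mv_cont (i : Bool) : Continuous fun p : (ℝ × ℝ × ℝ) × ℝ => mv i p.1 p.2 := by
  cases i
  · simp only [mv]; fun_prop
  · simp only [mv]; fun_prop

/-- rational points as real points -/
def kap (u : ℚ × ℚ × ℚ × ℚ) : ℝ × ℝ × ℝ × ℝ := (u.1, u.2.1, u.2.2.1, u.2.2.2)

theorem ev_kap (f : MvPolynomial (Fin 3) ℚ) (u : ℚ × ℚ × ℚ × ℚ) :
    ev f (kap u).2 = ((ev f u.2 : ℚ) : ℝ) := by
  have e : (Algebra.ofId ℚ ℝ).comp (aeval ![u.2.1, u.2.2.1, u.2.2.2]) =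
      (aeval ![((u.2.1 : ℚ) : ℝ), ((u.2.2.1 : ℚ) : ℝ), ((u.2.2.2 : ℚ) : ℝ)] :
        MvPolynomial (Fin 3) ℚ →ₐ[ℚ] ℝ) := by
    apply MvPolynomial.algHom_ext
    intro j
    fin_cases j <;> simp
  exact (DFunLike.congr_fun e f).symm

theorem mv_kap (i : Bool) (u : ℚ × ℚ × ℚ × ℚ) (t : ℚ) (v : ℚ) :
    ((v : ℝ), mv i (kap u).2 (t : ℝ)) = kap (v, mv i u.2 t) := by
  cases i <;> simp [mv, kap]

theorem Phi_kap {i : Bool} (d : DirData G i) (u : ℚ × ℚ × ℚ × ℚ) (n : ℚ) :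
    Phi d (kap u) (n : ℝ) = kap (Phi d u n) := by
  have h : cc d (kap u) (n : ℝ) = ((cc d u n : ℚ) : ℝ) := by
    rw [cc, cc, ev_kap, ev_kap]
    simp [kap]
  have h1 : (kap u).1 = ((u.1 : ℚ) : ℝ) := rfl
  have h2 := mv_kap i u (n * cc d u n) (-(u.1 + cc d u n))
  change (-((kap u).1 + cc d (kap u) n), mv i (kap u).2 (n * cc d (kap u) n)) = _
  rw [h, h1]
  push_cast at h2
  exact h2

/-- the rational points outside the branch divisor -/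
def X0 (G : MvPolynomial (Fin 3) ℚ) : Set (ℚ × ℚ × ℚ × ℚ) := {u | u.1 ≠ 0 ∧ u.1 ^ 2 = ev G u.2}

/-- their closure -/
def W0 (G : MvPolynomial (Fin 3) ℚ) : Set (ℝ × ℝ × ℝ × ℝ) := closure (kap '' X0 G)

theorem Phi_cont {i : Bool} (d : DirData G i) {x : ℝ × ℝ × ℝ × ℝ} {n : ℝ}
    (hD : 1 - ev d.α x.2 * n ^ 2 ≠ 0) :
    ContinuousAt (fun y : (ℝ × ℝ × ℝ × ℝ) × ℝ => Phi d y.1 y.2) (x, n) := by
  have h1 : Continuous fun y : (ℝ × ℝ × ℝ × ℝ) × ℝ => ev d.α y.1.2 :=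
    (ev_cont d.α).comp (continuous_snd.comp continuous_fst)
  have h2 : Continuous fun y : (ℝ × ℝ × ℝ × ℝ) × ℝ => ev d.β y.1.2 :=
    (ev_cont d.β).comp (continuous_snd.comp continuous_fst)
  have h3 : ContinuousAt (fun y : (ℝ × ℝ × ℝ × ℝ) × ℝ => cc d y.1 y.2) (x, n) := by
    unfold cc
    refine ContinuousAt.div ?_ ?_ hD
    · exact Continuous.continuousAt (by fun_prop)
    · exact Continuous.continuousAt (by fun_prop)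
  unfold Phi
  refine ContinuousAt.prodMk ?_ ?_
  · exact ((Continuous.continuousAt (by fun_prop)).add h3).neg
  · have h4 : ContinuousAt (fun y : (ℝ × ℝ × ℝ × ℝ) × ℝ => (y.1.2, y.2 * cc d y.1 y.2)) (x, n) :=
      (Continuous.continuousAt (by fun_prop)).prodMk
        ((Continuous.continuousAt (by fun_prop)).mul h3)
    exact ContinuousAt.comp (g := fun p : (ℝ × ℝ × ℝ) × ℝ => mv i p.1 p.2)
      (mv_cont i).continuousAt h4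

/-- the moves preserve the closure -/
theorem W0_move {i : Bool} (d : DirData G i) {x : ℝ × ℝ × ℝ × ℝ} {w t : ℝ} (hx : x ∈ W0 G)
    (hxe : x.1 ^ 2 = ev G x.2) (hw0 : w ≠ 0) (hw : w ^ 2 = ev G (mv i x.2 t)) (h1 : x.1 + w ≠ 0)
    (h2 : (x.1 + w) ^ 2 - ev d.α x.2 * t ^ 2 ≠ 0) : (w, mv i x.2 t) ∈ W0 G := by
  obtain ⟨hD, he⟩ := Phi_eq d hxe hw h1 h2
  set n := -t / (x.1 + w) with hn
  have hcl : (x, n) ∈ closure ((kap '' X0 G) ×ˢ Set.range ((↑) : ℚ → ℝ)) := by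
    rw [closure_prod_eq]
    exact ⟨hx, Rat.denseRange_cast n⟩
  have hne : NeBot (𝓝[(kap '' X0 G) ×ˢ Set.range ((↑) : ℚ → ℝ)] (x, n)) :=
    mem_closure_iff_nhdsWithin_neBot.1 hcl
  have hc := Phi_cont d hD
  rw [← he]
  refine mem_closure_of_tendsto (f := fun y : (ℝ × ℝ × ℝ × ℝ) × ℝ => Phi d y.1 y.2)
    (b := 𝓝[(kap '' X0 G) ×ˢ Set.range ((↑) : ℚ → ℝ)] (x, n))
    (hc.tendsto.mono_left nhdsWithin_le_nhds) ?_
  have hD' : ∀ᶠ y : (ℝ × ℝ × ℝ × ℝ) × ℝ in 𝓝 (x, n), 1 - ev d.α y.1.2 * y.2 ^ 2 ≠ 0 := by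
    have h3 : Continuous fun y : (ℝ × ℝ × ℝ × ℝ) × ℝ => 1 - ev d.α y.1.2 * y.2 ^ 2 := by
      have h1 : Continuous fun y : (ℝ × ℝ × ℝ × ℝ) × ℝ => ev d.α y.1.2 :=
        (ev_cont d.α).comp (continuous_snd.comp continuous_fst)
      fun_prop
    exact h3.continuousAt.eventually_ne hD
  have hP' : ∀ᶠ y : (ℝ × ℝ × ℝ × ℝ) × ℝ in 𝓝 (x, n), (Phi d y.1 y.2).1 ≠ 0 := by
    have h3 : ContinuousAt (fun y : (ℝ × ℝ × ℝ × ℝ) × ℝ => (Phi d y.1 y.2).1) (x, n) :=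
      continuous_fst.continuousAt.comp hc
    refine h3.eventually_ne ?_
    change (Phi d x n).1 ≠ 0
    rw [he]
    exact hw0
  filter_upwards [self_mem_nhdsWithin, nhdsWithin_le_nhds hD', nhdsWithin_le_nhds hP']
  rintro ⟨y, m⟩ ⟨⟨u, hu, rfl⟩, ⟨r, rfl⟩⟩ h3 h4
  simp only at h3 h4 ⊢
  rw [Phi_kap] at h4 ⊢
  refine ⟨_, ⟨?_, ?_⟩, rfl⟩
  · intro h5
    apply h4
    change (((Phi d u r).1 : ℚ) : ℝ) = 0
    rw [h5, Rat.cast_zero]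
  · refine Phi_mem d hu.2 ?_
    intro h5
    apply h3
    rw [ev_kap]
    have := congrArg (Rat.cast : ℚ → ℝ) h5
    push_cast at this
    exact this

/-- the real closure is open outside the branch divisor -/
theorem W0_open (d₁ : DirData G true) (d₂ : DirData G false) {T : ℝ × ℝ × ℝ × ℝ}
    (hT : T ∈ W0 G) (hT0 : T.1 ≠ 0) :
    ∀ᶠ S in 𝓝 T, S.1 ^ 2 = ev G S.2 → S ∈ W0 G := by
  obtain ⟨w₀, s₀, p₀, q₀⟩ := T
  simp only at hT0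
  have hTe : w₀ ^ 2 = ev G (s₀, p₀, q₀) := by
    have hcl : IsClosed {x : ℝ × ℝ × ℝ × ℝ | x.1 ^ 2 = ev G x.2} := by
      refine isClosed_eq (by fun_prop) ((ev_cont G).comp continuous_snd)
    refine (closure_minimal ?_ hcl) hT
    rintro _ ⟨u, hu, rfl⟩
    change (kap u).1 ^ 2 = ev G (kap u).2
    rw [ev_kap, ← hu.2]
    simp [kap]
  -- the good neighbourhood
  let r : ℝ × ℝ × ℝ × ℝ → ℝ × ℝ × ℝ × ℝ → Prop := fun a b =>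
    a.1 ≠ 0 ∧ a.1 + b.1 ≠ 0 ∧ (a.1 + b.1) ^ 2 - ev d₁.α a.2 * (b.2.1 - a.2.1) ^ 2 ≠ 0 ∧
      (a.1 + b.1) ^ 2 - ev d₂.α a.2 * (b.2.2.1 - a.2.2.1) ^ 2 ≠ 0
  have hgood : ∀ᶠ y : (ℝ × ℝ × ℝ × ℝ) × (ℝ × ℝ × ℝ × ℝ) in
      𝓝 ((w₀, s₀, p₀, q₀) : ℝ × ℝ × ℝ × ℝ) ×ˢ 𝓝 ((w₀, s₀, p₀, q₀) : ℝ × ℝ × ℝ × ℝ),
      r y.1 y.2 := by
    rw [← nhds_prod_eq]
    have c1 : Continuous fun y : (ℝ × ℝ × ℝ × ℝ) × (ℝ × ℝ × ℝ × ℝ) => ev d₁.α y.1.2 :=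
      (ev_cont d₁.α).comp (continuous_snd.comp continuous_fst)
    have c2 : Continuous fun y : (ℝ × ℝ × ℝ × ℝ) × (ℝ × ℝ × ℝ × ℝ) => ev d₂.α y.1.2 :=
      (ev_cont d₂.α).comp (continuous_snd.comp continuous_fst)
    have hne : w₀ + w₀ ≠ 0 := by
      rw [← two_mul]
      exact mul_ne_zero two_ne_zero hT0
    have f1 : Continuous fun y : (ℝ × ℝ × ℝ × ℝ) × (ℝ × ℝ × ℝ × ℝ) => y.1.1 := by fun_prop
    have f2 : Continuous fun y : (ℝ × ℝ × ℝ × ℝ) × (ℝ × ℝ × ℝ × ℝ) => y.1.1 + y.2.1 := by fun_prop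
    have f3 : Continuous fun y : (ℝ × ℝ × ℝ × ℝ) × (ℝ × ℝ × ℝ × ℝ) =>
        (y.1.1 + y.2.1) ^ 2 - ev d₁.α y.1.2 * (y.2.2.1 - y.1.2.1) ^ 2 := by fun_prop
    have f4 : Continuous fun y : (ℝ × ℝ × ℝ × ℝ) × (ℝ × ℝ × ℝ × ℝ) =>
        (y.1.1 + y.2.1) ^ 2 - ev d₂.α y.1.2 * (y.2.2.2.1 - y.1.2.2.1) ^ 2 := by fun_prop
    have g1 := f1.continuousAt.eventually_ne
      (show (((w₀, s₀, p₀, q₀), (w₀, s₀, p₀, q₀)) :
        (ℝ × ℝ × ℝ × ℝ) × (ℝ × ℝ × ℝ × ℝ)).1.1 ≠ 0 from hT0)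
    have g2 := f2.continuousAt.eventually_ne
      (show (((w₀, s₀, p₀, q₀), (w₀, s₀, p₀, q₀)) :
        (ℝ × ℝ × ℝ × ℝ) × (ℝ × ℝ × ℝ × ℝ)).1.1 + (((w₀, s₀, p₀, q₀), (w₀, s₀, p₀, q₀)) :
        (ℝ × ℝ × ℝ × ℝ) × (ℝ × ℝ × ℝ × ℝ)).2.1 ≠ 0 from hne)
    have g3 := (f3.continuousAt (x := (((w₀, s₀, p₀, q₀), (w₀, s₀, p₀, q₀)) :
        (ℝ × ℝ × ℝ × ℝ) × (ℝ × ℝ × ℝ × ℝ)))).eventually_ne (y := 0) (by
      simp only [sub_self]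
      simpa using hT0)
    have g4 := (f4.continuousAt (x := (((w₀, s₀, p₀, q₀), (w₀, s₀, p₀, q₀)) :
        (ℝ × ℝ × ℝ × ℝ) × (ℝ × ℝ × ℝ × ℝ)))).eventually_ne (y := 0) (by
      simp only [sub_self]
      simpa using hT0)
    filter_upwards [g1, g2, g3, g4] with y h1 h2 h3 h4
    exact ⟨h1, h2, h3, h4⟩
  obtain ⟨N, hN, hgood⟩ := (Filter.eventually_prod_self_iff (r := r)).1 hgood
  have hN' := hN
  obtain ⟨M, hMN, hMo, hTM⟩ := mem_nhds_iff.1 hN'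
  -- one move
  have hstep : ∀ x ∈ M, x ∈ W0 G → x.1 ^ 2 = ev G x.2 → ∀ y ∈ M, y.1 ^ 2 = ev G y.2 →
      ((∃ t, y.2 = mv true x.2 t) ∨ (∃ t, y.2 = mv false x.2 t)) → y ∈ W0 G := by
    intro x hxM hx hxe y hyM hye hxy
    have h1 := hgood x (hMN hxM) y (hMN hyM)
    have h2 := hgood y (hMN hyM) x (hMN hxM)
    rcases hxy with ⟨t, ht⟩ | ⟨t, ht⟩
    · have h3 : y = (y.1, mv true x.2 t) := by rw [← ht]
      rw [h3]
      refine W0_move d₁ hx hxe h2.1 (by rw [← ht]; exact hye) h1.2.1 ?_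
      have h4 := h1.2.2.1
      rw [ht] at h4
      simp only [mv, add_sub_cancel_left] at h4
      exact h4
    · have h3 : y = (y.1, mv false x.2 t) := by rw [← ht]
      rw [h3]
      refine W0_move d₂ hx hxe h2.1 (by rw [← ht]; exact hye) h1.2.1 ?_
      have h4 := h1.2.2.2
      rw [ht] at h4
      simp only [mv, add_sub_cancel_left] at h4
      exact h4
  -- lifts
  let ρ : ℝ := w₀ / |w₀|
  have hρ : ρ ^ 2 = 1 := by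
    change (w₀ / |w₀|) ^ 2 = 1
    rw [div_pow, sq_abs, div_self (pow_ne_zero 2 hT0)]
  let lift : ℝ × ℝ × ℝ → ℝ × ℝ × ℝ × ℝ := fun z => (ρ * √(ev G z), z)
  have hliftc : Continuous lift :=
    (continuous_const.mul (ev_cont G).sqrt).prodMk continuous_id
  have hlifte : ∀ z, 0 ≤ ev G z → (lift z).1 ^ 2 = ev G (lift z).2 := by
    intro z hz
    change (ρ * √(ev G z)) ^ 2 = ev G z
    rw [mul_pow, hρ, Real.sq_sqrt hz, one_mul]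
  have hliftT : lift (s₀, p₀, q₀) = (w₀, s₀, p₀, q₀) := by
    change (ρ * √(ev G (s₀, p₀, q₀)), s₀, p₀, q₀) = _
    rw [← hTe, Real.sqrt_sq_eq_abs]
    have : ρ * |w₀| = w₀ := div_mul_cancel₀ _ (abs_ne_zero.2 hT0)
    rw [this]
  -- near the point
  have hO : ∀ z, lift z ∈ M → 0 < ev G z → ∀ᶠ z' in 𝓝 z, lift z' ∈ M ∧ 0 < ev G z' := by
    intro z h1 h2
    exact (hliftc.continuousAt.eventually (hMo.mem_nhds h1)).and
      ((ev_cont G).continuousAt.eventually (lt_mem_nhds h2))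
  have hz0 : lift (s₀, p₀, q₀) ∈ M ∧ 0 < ev G (s₀, p₀, q₀) := by
    refine ⟨by rw [hliftT]; exact hTM, ?_⟩
    rw [← hTe]
    positivity
  -- the auxiliary point
  obtain ⟨ε, hε0, hε⟩ : ∃ ε : ℝ, ε ≠ 0 ∧ lift (mv false (s₀, p₀, q₀) ε) ∈ M ∧
      0 < ev G (mv false (s₀, p₀, q₀) ε) := by
    have h1 : Tendsto (fun ε : ℝ => mv false (s₀, p₀, q₀) ε) (𝓝[≠] 0) (𝓝 (s₀, p₀, q₀)) := by
      have h2 : Continuous fun ε : ℝ => mv false (s₀, p₀, q₀) ε := by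
        simp only [mv]; fun_prop
      have h3 := h2.tendsto 0
      have h4 : mv false (s₀, p₀, q₀) (0 : ℝ) = (s₀, p₀, q₀) := by simp [mv]
      rw [h4] at h3
      exact h3.mono_left nhdsWithin_le_nhds
    obtain ⟨ε, h3, h4⟩ := ((h1.eventually (hO _ hz0.1 hz0.2)).and self_mem_nhdsWithin).exists
    exact ⟨ε, h4, h3⟩
  have hP1 : lift (mv false (s₀, p₀, q₀) ε) ∈ W0 G := by
    refine hstep _ hTM hT hTe _ hε.1 (hlifte _ hε.2.le) (Or.inr ⟨ε, rfl⟩)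
  -- the auxiliary first coordinate
  let s₂ : ℝ × ℝ × ℝ × ℝ → ℝ := fun S => (S.2.2.2 - q₀ - ε * s₀) / (S.2.2.1 - p₀ - ε)
  have hs₂T : s₂ (w₀, s₀, p₀, q₀) = s₀ := by
    change (q₀ - q₀ - ε * s₀) / (p₀ - p₀ - ε) = s₀
    rw [sub_self, sub_self, zero_sub, zero_sub, neg_div_neg_eq, mul_div_cancel_left₀ _ hε0]
  have hden : ∀ᶠ S : ℝ × ℝ × ℝ × ℝ in 𝓝 (w₀, s₀, p₀, q₀), S.2.2.1 - p₀ - ε ≠ 0 := by
    refine (Continuous.continuousAt (by fun_prop)).eventually_ne ?_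
    simp only [sub_self, zero_sub]
    exact neg_ne_zero.2 hε0
  have hs₂c : ContinuousAt s₂ (w₀, s₀, p₀, q₀) := by
    refine ContinuousAt.div (Continuous.continuousAt (by fun_prop))
      (Continuous.continuousAt (by fun_prop)) ?_
    simp only [sub_self, zero_sub]
    exact neg_ne_zero.2 hε0
  have hz2 : ∀ᶠ S in 𝓝 ((w₀, s₀, p₀, q₀) : ℝ × ℝ × ℝ × ℝ),
      lift (s₂ S, p₀ + ε, q₀ + ε * s₀) ∈ M ∧ 0 < ev G (s₂ S, p₀ + ε, q₀ + ε * s₀) := by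
    have h1 : Tendsto (fun S => (s₂ S, p₀ + ε, q₀ + ε * s₀)) (𝓝 (w₀, s₀, p₀, q₀))
        (𝓝 (mv false (s₀, p₀, q₀) ε)) := by
      have h2 : mv false (s₀, p₀, q₀) ε = (s₂ (w₀, s₀, p₀, q₀), p₀ + ε, q₀ + ε * s₀) := by
        rw [hs₂T]
        rfl
      rw [h2]
      exact (hs₂c.prodMk (continuousAt_const.prodMk continuousAt_const)).tendsto
    exact h1.eventually (hO _ hε.1 hε.2)
  have hz3 : ∀ᶠ S in 𝓝 ((w₀, s₀, p₀, q₀) : ℝ × ℝ × ℝ × ℝ),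
      lift (s₂ S, S.2.2.1, S.2.2.2) ∈ M ∧ 0 < ev G (s₂ S, S.2.2.1, S.2.2.2) := by
    have h1 : Tendsto (fun S : ℝ × ℝ × ℝ × ℝ => (s₂ S, S.2.2.1, S.2.2.2)) (𝓝 (w₀, s₀, p₀, q₀))
        (𝓝 (s₀, p₀, q₀)) := by
      have k1 : Continuous fun S : ℝ × ℝ × ℝ × ℝ => S.2.2.1 := by fun_prop
      have k2 : Continuous fun S : ℝ × ℝ × ℝ × ℝ => S.2.2.2 := by fun_prop
      have h4 : Tendsto (fun S : ℝ × ℝ × ℝ × ℝ => (s₂ S, S.2.2.1, S.2.2.2))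
          (𝓝 (w₀, s₀, p₀, q₀)) (𝓝 (s₂ (w₀, s₀, p₀, q₀), p₀, q₀)) :=
        (hs₂c.prodMk (k1.continuousAt.prodMk k2.continuousAt)).tendsto
      rw [hs₂T] at h4
      exact h4
    exact h1.eventually (hO _ hz0.1 hz0.2)
  filter_upwards [hden, hz2, hz3, hMo.mem_nhds hTM] with S hS1 hS2 hS3 hS4 hSe
  have hP2 : lift (s₂ S, p₀ + ε, q₀ + ε * s₀) ∈ W0 G := by
    refine hstep _ hε.1 hP1 (hlifte _ hε.2.le) _ hS2.1 (hlifte _ hS2.2.le)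
      (Or.inl ⟨s₂ S - s₀, ?_⟩)
    change (s₂ S, p₀ + ε, q₀ + ε * s₀) = mv true (mv false (s₀, p₀, q₀) ε) (s₂ S - s₀)
    simp [mv]
  have hP3 : lift (s₂ S, S.2.2.1, S.2.2.2) ∈ W0 G := by
    refine hstep _ hS2.1 hP2 (hlifte _ hS2.2.le) _ hS3.1 (hlifte _ hS3.2.le)
      (Or.inr ⟨S.2.2.1 - p₀ - ε, ?_⟩)
    change (s₂ S, S.2.2.1, S.2.2.2) = mv false (s₂ S, p₀ + ε, q₀ + ε * s₀) (S.2.2.1 - p₀ - ε)
    have h1 : (S.2.2.1 - p₀ - ε) * s₂ S = S.2.2.2 - q₀ - ε * s₀ := mul_div_cancel₀ _ hS1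
    simp only [mv]
    rw [h1]
    refine Prod.ext rfl (Prod.ext ?_ ?_)
    · simp
    · simp
  refine hstep _ hS3.1 hP3 (hlifte _ hS3.2.le) S hS4 hSe (Or.inl ⟨S.2.1 - s₂ S, ?_⟩)
  change S.2 = mv true (s₂ S, S.2.2.1, S.2.2.2) (S.2.1 - s₂ S)
  simp [mv]

end Pool.Agent.Q6.FD
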