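import Pool.Agent.Q6.FD.Aff
import Pool.Agent.Q35.HB.Mod

/-! The function field of the double cover `w² = G(s, p, q)` and its specialisations. -/

set_option autoImplicit false
set_option maxHeartbeats 400000

namespace Pool.Agent.Q6.FD

open MvPolynomial Pool.Agent.Q35.HB

section

variable {k K : Type} [Field k] [CharZero k] [Field K] [Algebra k K]

omit [CharZero k] in
theorem norm_ne {G a b : MvPolynomial (Fin 3) k} (hsq : Squarefree G) (h1 : ∀ u : k, G ≠ C u)
    (h : b ^ 2 = a ^ 2 * G) : a = 0 := by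
  by_contra ha
  have h2 : a ^ 2 ∣ b ^ 2 := ⟨G, h⟩
  obtain ⟨d, rfl⟩ := (IsIntegrallyClosed.pow_dvd_pow_iff two_ne_zero).1 h2
  have h3 : d ^ 2 = G := by
    rw [mul_pow] at h
    exact mul_left_cancel₀ (pow_ne_zero 2 ha) h
  have h4 : IsUnit d := hsq d ⟨1, by rw [← h3]; ring⟩
  obtain ⟨u, -, rfl⟩ := isUnit_iff_eq_C_of_isReduced.1 h4
  exact h1 (u ^ 2) (by rw [← h3, map_pow])

omit [CharZero k] in
/-- division by the monic polynomial `W² - G` -/
theorem exists_rem (G : MvPolynomial (Fin 3) k) (f : MvPolynomial (Fin 4) k) :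
    ∃ (Q : MvPolynomial (Fin 4) k) (a b : MvPolynomial (Fin 3) k),
      f = (X 0 ^ 2 - rename Fin.succ G) * Q + rename Fin.succ a * X 0 + rename Fin.succ b := by
  set M : Polynomial (MvPolynomial (Fin 3) k) := Polynomial.X ^ 2 - Polynomial.C G with hM
  have hmon : M.Monic := Polynomial.monic_X_pow_sub_C G two_ne_zero
  have hdeg : M.degree = 2 := by
    rw [hM, Polynomial.degree_X_pow_sub_C two_pos]
    rfl
  set P := finSuccEquiv k 3 f with hP
  have h1 := Polynomial.modByMonic_add_div P M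
  have h2 : (P %ₘ M).degree ≤ 1 := by
    have h3 := Polynomial.degree_modByMonic_lt P hmon
    rw [hdeg] at h3
    exact Order.le_of_lt_succ h3
  have h3 := Polynomial.eq_X_add_C_of_degree_le_one h2
  set a := (P %ₘ M).coeff 1 with ha
  set b := (P %ₘ M).coeff 0 with hb
  refine ⟨(finSuccEquiv k 3).symm (P /ₘ M), a, b, ?_⟩
  apply (finSuccEquiv k 3).injective
  rw [map_add, map_add, map_mul, map_mul, map_sub, map_pow, finSucc_rename, finSucc_rename,
    finSucc_rename, finSuccEquiv_X_zero, AlgEquiv.apply_symm_apply, ← hP]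
  conv_lhs => rw [← h1, h3]
  ring

/-- the generic point of the double cover -/
theorem gen_cover {s p q w : K} (hx : AlgebraicIndependent k ![s, p, q])
    {G : MvPolynomial (Fin 3) k} (hsq : Squarefree G) (h1 : ∀ u : k, G ≠ C u)
    (hw : w ^ 2 = aeval ![s, p, q] G) (htop : IntermediateField.adjoin k {s, p, q, w} = ⊤) :
    Gen (X 0 ^ 2 - rename Fin.succ G : MvPolynomial (Fin 4) k)
      (Fin.cons w ![s, p, q] : Fin 4 → K) := by
  have hcs : ∀ f : MvPolynomial (Fin 3) k,
      aeval (Fin.cons w ![s, p, q] : Fin 4 → K) (rename Fin.succ f) = aeval ![s, p, q] f := by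
    intro f
    have e : (Fin.cons w ![s, p, q] : Fin 4 → K) ∘ (Fin.succ : Fin 3 → Fin 4) = ![s, p, q] := by
      funext j
      rw [Function.comp_apply, Fin.cons_succ]
    rw [aeval_rename, e]
  have hF : aeval (Fin.cons w ![s, p, q] : Fin 4 → K)
      (X 0 ^ 2 - rename Fin.succ G : MvPolynomial (Fin 4) k) = 0 := by
    rw [map_sub, map_pow, aeval_X, hcs, Fin.cons_zero, hw, sub_self]
  refine ⟨fun f => ⟨fun hf => ?_, ?_⟩, ?_⟩
  · obtain ⟨Q, a, b, rfl⟩ := exists_rem G f
    rw [map_add, map_add, map_mul, hF, zero_mul, zero_add, map_mul, hcs, hcs, aeval_X,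
      Fin.cons_zero] at hf
    have h2 : b ^ 2 = a ^ 2 * G := by
      rw [← sub_eq_zero]
      apply (algebraicIndependent_iff.1 hx)
      rw [map_sub, map_mul, map_pow, map_pow, ← hw]
      linear_combination (aeval ![s, p, q] b - aeval ![s, p, q] a * w) * hf
    have ha := norm_ne hsq h1 h2
    rw [ha] at h2
    have hb : b = 0 := by
      apply (pow_eq_zero_iff two_ne_zero).1
      rw [h2]
      ring
    rw [ha, hb]
    exact ⟨Q, by rw [map_zero]; ring⟩
  · rintro ⟨Q, rfl⟩
    rw [map_mul, hF, zero_mul]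
  · rw [← top_le_iff, ← htop, IntermediateField.adjoin_le_iff]
    rintro z (rfl | rfl | rfl | rfl)
    · exact IntermediateField.subset_adjoin _ _ ⟨1, rfl⟩
    · exact IntermediateField.subset_adjoin _ _ ⟨2, rfl⟩
    · exact IntermediateField.subset_adjoin _ _ ⟨3, rfl⟩
    · exact IntermediateField.subset_adjoin _ _ ⟨0, rfl⟩

/-- the rational points of the double cover are dense if there is one outside the branch locus -/
theorem dense_cover {G : MvPolynomial (Fin 3) k} (hsq : Squarefree G) (h1 : ∀ u : k, G ≠ C u)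
    {A B C₀ A' B' C₀' : MvPolynomial (Fin 2) k}
    (hG1 : G = rename Fin.succ A * X 0 ^ 2 + rename Fin.succ B * X 0 + rename Fin.succ C₀)
    (hG2 : th G = rename Fin.succ A' * X 0 ^ 2 + rename Fin.succ B' * X 0 + rename Fin.succ C₀')
    {s₀ p₀ q₀ : k} (h0 : Sq G s₀ p₀ q₀) (g : MvPolynomial (Fin 4) k)
    (hg : ¬ (X 0 ^ 2 - rename Fin.succ G : MvPolynomial (Fin 4) k) ∣ g) :
    ∃ y : Fin 4 → k, eval y (X 0 ^ 2 - rename Fin.succ G : MvPolynomial (Fin 4) k) = 0 ∧
      eval y g ≠ 0 := by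
  obtain ⟨Q, a, b, rfl⟩ := exists_rem G g
  have hne : b ^ 2 - a ^ 2 * G ≠ 0 := by
    intro h2
    have h2 := sub_eq_zero.1 h2
    have ha := norm_ne hsq h1 h2
    rw [ha] at h2
    have hb : b = 0 := by
      apply (pow_eq_zero_iff two_ne_zero).1
      rw [h2]
      ring
    apply hg
    rw [ha, hb]
    exact ⟨Q, by rw [map_zero]; ring⟩
  obtain ⟨s, p, q, ⟨w, hw, h2⟩, h3⟩ := dense_sq hG1 hG2 h0 hne
  have hcs : ∀ f : MvPolynomial (Fin 3) k,
      eval (Fin.cons w ![s, p, q] : Fin 4 → k) (rename Fin.succ f) = eval ![s, p, q] f := by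
    intro f
    have e : (Fin.cons w ![s, p, q] : Fin 4 → k) ∘ (Fin.succ : Fin 3 → Fin 4) = ![s, p, q] := by
      funext j
      rw [Function.comp_apply, Fin.cons_succ]
    rw [eval_rename, e]
  have hF : eval (Fin.cons w ![s, p, q] : Fin 4 → k)
      (X 0 ^ 2 - rename Fin.succ G : MvPolynomial (Fin 4) k) = 0 := by
    rw [map_sub, map_pow, eval_X, hcs, Fin.cons_zero, h2, sub_self]
  refine ⟨Fin.cons w ![s, p, q], hF, ?_⟩
  rw [map_add, map_add, map_mul, hF, zero_mul, zero_add, map_mul, hcs, hcs, eval_X, Fin.cons_zero]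
  intro h4
  apply h3
  rw [map_sub, map_mul, map_pow, map_pow, ← h2]
  linear_combination (eval ![s, p, q] b - eval ![s, p, q] a * w) * h4

end

end Pool.Agent.Q6.FD
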