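import Pool.Agent.Q6.FD.Form

/-! The rational points of the double covers of the variety of flags: one point outside the branch
locus gives a dense set of points. -/

set_option autoImplicit false
set_option maxHeartbeats 400000

namespace Pool.Agent.Q6.FD

open MvPolynomial

section

variable {k : Type} [Field k] [CharZero k]

omit [CharZero k] in
theorem fin_quad {a b c : k} (h : ¬ (a = 0 ∧ b = 0 ∧ c = 0)) :
    {t : k | a * t ^ 2 + b * t + c = 0}.Finite := by
  by_contra hinf
  have h0 := Polynomial.eq_zero_of_infinite_isRoot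
    (Polynomial.C a * Polynomial.X ^ 2 + Polynomial.C b * Polynomial.X + Polynomial.C c) (by
      refine Set.Infinite.mono ?_ hinf
      intro t ht
      rw [Set.mem_setOf_eq] at ht ⊢
      simpa using ht)
  apply h
  have h1 := congrArg (fun p => Polynomial.coeff p 2) h0
  have h2 := congrArg (fun p => Polynomial.coeff p 1) h0
  have h3 := congrArg (fun p => Polynomial.coeff p 0) h0
  simp [Polynomial.coeff_X, Polynomial.coeff_C] at h1 h2 h3
  exact ⟨h1, h2, h3⟩

/-- there are infinitely many points on a conic through a point outside the branch locus -/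
theorem infinite_conic (α β w₀ : k) (hw : w₀ ≠ 0) :
    {t : k | ∃ w : k, w ≠ 0 ∧ w ^ 2 = α * t ^ 2 + β * t + w₀ ^ 2}.Infinite := by
  intro hT
  have hR : {t : k | α * t ^ 2 + β * t + w₀ ^ 2 = 0}.Finite :=
    fin_quad fun h => pow_ne_zero 2 hw h.2.2
  have hM : {m : k | 1 * m ^ 2 + 0 * m + -α = 0}.Finite := fin_quad fun h => one_ne_zero h.1
  let f : k → k := fun m => (β - 2 * w₀ * m) / (m ^ 2 - α)
  have hpre := Set.Finite.preimage' (f := f) (hT.union hR) fun τ _ => by
    refine ((fin_quad (a := τ) (b := 2 * w₀) (c := -(α * τ + β)) (fun h =>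
      mul_ne_zero two_ne_zero hw h.2.1)).union hM).subset ?_
    intro m hm
    by_cases hd : m ^ 2 - α = 0
    · right
      rw [Set.mem_setOf_eq]
      linear_combination hd
    · left
      have h1 : (β - 2 * w₀ * m) / (m ^ 2 - α) = τ := hm
      rw [div_eq_iff hd] at h1
      rw [Set.mem_setOf_eq]
      linear_combination -h1
  refine Set.infinite_univ ((hM.union hpre).subset ?_)
  intro m _
  by_cases hd : m ^ 2 - α = 0
  · left
    rw [Set.mem_setOf_eq]
    linear_combination hd
  · right
    have h1 : f m * (m ^ 2 - α) = β - 2 * w₀ * m := div_mul_cancel₀ _ hd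
    have h2 : (w₀ + m * f m) ^ 2 = α * f m ^ 2 + β * f m + w₀ ^ 2 := by
      linear_combination f m * h1
    by_cases h3 : w₀ + m * f m = 0
    · right
      rw [Set.mem_setOf_eq, ← h2, h3]
      ring
    · left
      exact ⟨_, h3, h2⟩

omit [CharZero k] in
theorem line_zero (h : MvPolynomial (Fin 3) k) (f : Fin 3 → Polynomial k)
    (hinf : {t : k | eval (fun i => (f i).eval t) h = 0}.Infinite) (t : k) :
    eval (fun i => (f i).eval t) h = 0 := by
  have e : ∀ u : k, (aeval f h).eval u = eval (fun i => (f i).eval u) h := by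
    intro u
    have e1 : (Polynomial.evalRingHom u).comp
        ((aeval f : MvPolynomial (Fin 3) k →ₐ[k] Polynomial k) : MvPolynomial (Fin 3) k →+* _) =
        eval (fun i => (f i).eval u) := by
      apply MvPolynomial.ringHom_ext
      · intro c
        simp
      · intro j
        simp
    exact RingHom.congr_fun e1 h
  have h0 : aeval f h = 0 := by
    apply Polynomial.eq_zero_of_infinite_isRoot
    refine hinf.mono ?_
    intro u hu
    rw [Set.mem_setOf_eq] at hu ⊢
    rw [Polynomial.IsRoot.def, e]
    exact hu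
  rw [← e, h0, Polynomial.eval_zero]

/-- the value of `G` is a nonzero square -/
def Sq (G : MvPolynomial (Fin 3) k) (s p q : k) : Prop :=
  ∃ w : k, w ≠ 0 ∧ w ^ 2 = eval ![s, p, q] G

omit [CharZero k] in
theorem eval_rename_succ (f : MvPolynomial (Fin 2) k) (a b c : k) :
    eval ![a, b, c] (rename Fin.succ f : MvPolynomial (Fin 3) k) = eval ![b, c] f := by
  rw [eval_rename]
  congr 1

theorem sq_move1 {G : MvPolynomial (Fin 3) k} {A B C₀ : MvPolynomial (Fin 2) k}
    (hG : G = rename Fin.succ A * X 0 ^ 2 + rename Fin.succ B * X 0 + rename Fin.succ C₀)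
    {s p q : k} (h : Sq G s p q) : {t : k | Sq G (s + t) p q}.Infinite := by
  obtain ⟨w, hw, h⟩ := h
  refine (infinite_conic (eval ![p, q] A) (2 * eval ![p, q] A * s + eval ![p, q] B) w hw).mono ?_
  rintro t ⟨v, hv, h'⟩
  refine ⟨v, hv, ?_⟩
  rw [h', h, hG]
  simp only [map_add, map_mul, map_pow, eval_rename_succ, eval_X]
  simp
  ring

omit [CharZero k] in
theorem eval_th (G : MvPolynomial (Fin 3) k) (s p b : k) :
    eval ![p, s, b] (th G) = eval ![s, p, b + p * s] G := by
  have e1 : (eval ![p, s, b]).comp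
      ((th : MvPolynomial (Fin 3) k →ₐ[k] MvPolynomial (Fin 3) k) :
        MvPolynomial (Fin 3) k →+* _) = eval ![s, p, b + p * s] := by
    apply MvPolynomial.ringHom_ext
    · intro c
      simp
    · intro j
      fin_cases j <;> simp [th]
  exact RingHom.congr_fun e1 G

theorem sq_move2 {G : MvPolynomial (Fin 3) k} {A B C₀ : MvPolynomial (Fin 2) k}
    (hG : th G = rename Fin.succ A * X 0 ^ 2 + rename Fin.succ B * X 0 + rename Fin.succ C₀)
    {s p q : k} (h : Sq G s p q) : {t : k | Sq G s (p + t) (q + t * s)}.Infinite := by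
  obtain ⟨w, hw, h⟩ := h
  have e : ∀ t : k, eval ![s, p + t, q + t * s] G = eval ![s, q - p * s] A * (p + t) ^ 2 +
      eval ![s, q - p * s] B * (p + t) + eval ![s, q - p * s] C₀ := by
    intro t
    have h1 := eval_th G s (p + t) (q - p * s)
    rw [show q - p * s + (p + t) * s = q + t * s by ring] at h1
    rw [← h1, hG]
    simp only [map_add, map_mul, map_pow, eval_rename_succ, eval_X]
    simp
  have e0 := e 0
  rw [show p + 0 = p by ring, show q + 0 * s = q by ring] at e0
  refine (infinite_conic (eval ![s, q - p * s] A)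
    (2 * eval ![s, q - p * s] A * p + eval ![s, q - p * s] B) w hw).mono ?_
  rintro t ⟨v, hv, h'⟩
  refine ⟨v, hv, ?_⟩
  rw [h', h, e, e0]
  ring

/-- the points where `G` is a nonzero square are dense, if there are any -/
theorem dense_sq {G : MvPolynomial (Fin 3) k} {A B C₀ A' B' C₀' : MvPolynomial (Fin 2) k}
    (hG1 : G = rename Fin.succ A * X 0 ^ 2 + rename Fin.succ B * X 0 + rename Fin.succ C₀)
    (hG2 : th G = rename Fin.succ A' * X 0 ^ 2 + rename Fin.succ B' * X 0 + rename Fin.succ C₀')
    {s₀ p₀ q₀ : k} (h0 : Sq G s₀ p₀ q₀) {h : MvPolynomial (Fin 3) k} (hh : h ≠ 0) :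
    ∃ s p q, Sq G s p q ∧ eval ![s, p, q] h ≠ 0 := by
  by_contra hcon
  push Not at hcon
  -- lines in the direction of `s`
  have hA : ∀ s p q, Sq G s p q → ∀ s', eval ![s', p, q] h = 0 := by
    intro s p q hS s'
    have h1 := line_zero h ![Polynomial.C s + Polynomial.X, Polynomial.C p, Polynomial.C q] (by
      refine (sq_move1 hG1 hS).mono ?_
      intro t ht
      rw [Set.mem_setOf_eq]
      have e : (fun i => ((![Polynomial.C s + Polynomial.X, Polynomial.C p, Polynomial.C q] :
          Fin 3 → Polynomial k) i).eval t) = ![s + t, p, q] := by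
        funext i
        fin_cases i <;> simp
      rw [e]
      exact hcon _ _ _ ht) (s' - s)
    have e : (fun i => ((![Polynomial.C s + Polynomial.X, Polynomial.C p, Polynomial.C q] :
        Fin 3 → Polynomial k) i).eval (s' - s)) = ![s', p, q] := by
      funext i
      fin_cases i <;> simp
    rwa [e] at h1
  have hB : ∀ t₁, Sq G (s₀ + t₁) p₀ q₀ → ∀ t₂ s',
      eval ![s', p₀ + t₂, q₀ + t₂ * (s₀ + t₁)] h = 0 := by
    intro t₁ hS t₂ s'
    have e : ∀ t : k, (fun i => ((![Polynomial.C s', Polynomial.C p₀ + Polynomial.X,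
        Polynomial.C q₀ + Polynomial.X * Polynomial.C (s₀ + t₁)] :
          Fin 3 → Polynomial k) i).eval t) = ![s', p₀ + t, q₀ + t * (s₀ + t₁)] := by
      intro t
      funext i
      fin_cases i <;> simp
    have h1 := line_zero h ![Polynomial.C s', Polynomial.C p₀ + Polynomial.X,
        Polynomial.C q₀ + Polynomial.X * Polynomial.C (s₀ + t₁)] (by
      refine (sq_move2 hG2 hS).mono ?_
      intro t ht
      rw [Set.mem_setOf_eq, e]
      exact hA _ _ _ ht s') t₂
    rwa [e] at h1
  have hC : ∀ t₁ t₂ s', eval ![s', p₀ + t₂, q₀ + t₂ * (s₀ + t₁)] h = 0 := by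
    intro t₁ t₂ s'
    have e : ∀ t : k, (fun i => ((![Polynomial.C s', Polynomial.C (p₀ + t₂),
        Polynomial.C (q₀ + t₂ * s₀) + Polynomial.C t₂ * Polynomial.X] :
          Fin 3 → Polynomial k) i).eval t) = ![s', p₀ + t₂, q₀ + t₂ * (s₀ + t)] := by
      intro t
      funext i
      fin_cases i
      · simp
      · simp
      · simp
        ring
    have h1 := line_zero h ![Polynomial.C s', Polynomial.C (p₀ + t₂),
        Polynomial.C (q₀ + t₂ * s₀) + Polynomial.C t₂ * Polynomial.X] (by
      refine (sq_move1 hG1 h0).mono ?_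
      intro t ht
      rw [Set.mem_setOf_eq, e]
      exact hB t ht t₂ s') t₁
    rwa [e] at h1
  have hfin : (X 1 - C p₀) * h = 0 := by
    apply MvPolynomial.funext
    intro v
    rw [map_mul, map_sub, eval_X, eval_C, map_zero]
    by_cases hv : v 1 = p₀
    · rw [hv, sub_self, zero_mul]
    · have hd : v 1 - p₀ ≠ 0 := sub_ne_zero.2 hv
      have h1 := hC ((v 2 - q₀) / (v 1 - p₀) - s₀) (v 1 - p₀) (v 0)
      have e : (![v 0, p₀ + (v 1 - p₀), q₀ + (v 1 - p₀) *
          (s₀ + ((v 2 - q₀) / (v 1 - p₀) - s₀))] : Fin 3 → k) = v := by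
        funext i
        fin_cases i
        · simp
        · simp
        · simp
          field_simp
          ring
      rw [e] at h1
      rw [h1, mul_zero]
  rcases mul_eq_zero.1 hfin with h1 | h1
  · have h2 := congrArg (eval (fun _ => p₀ + 1)) h1
    simp at h2
  · exact hh h1

end

end Pool.Agent.Q6.FD
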